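import Mathlib
import Pool.Agent.W793.YM.Corr
import Pool.Agent.W793.YM.Char
import Pool.Agent.TH618.YM.SiteRP

/-!
# Positivity of the time correlations of an observable of the time slice `0`
-/

open MeasureTheory Matrix
open scoped Matrix.Norms.Frobenius ContDiff
open Pool.Agent.H906R3.YM hiding Pl
open Pool.Agent.W793.YM Pool.Agent.TH618.YM

namespace Pool.Agent.W2helper10.CP

set_option linter.unusedSectionVars false
set_option linter.unusedVariables false

noncomputable section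

variable {G : Type*} [Group G] [TopologicalSpace G] [IsTopologicalGroup G] [CompactSpace G]
  [SecondCountableTopology G] [MeasurableSpace G] [BorelSpace G] (μ : Measure G)
  [IsProbabilityMeasure μ] [μ.IsMulLeftInvariant] [μ.IsMulRightInvariant] [μ.IsInvInvariant]
  {N n : ℕ} {L : LD G N n} {d m : ℕ} [NeZero m] {τ : Fin d}

/-- the observable at the time `k` -/
def Ft {l : ℕ} (τ : Fin d) (F : (Ed d l → G) → ℝ) (k : ZMod l) (U : Ed d l → G) : ℝ :=
  F (tr (sv τ k) U)

lemma Ft_cont {l : ℕ} [NeZero l] {F : (Ed d l → G) → ℝ} (hF : Continuous F) (k : ZMod l) :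
    Continuous (Ft τ F k) := hF.comp (tr_cont _)

lemma Zt_sum {l : ℕ} [NeZero l] {ι : Type*} (s : Finset ι) {β : ℝ} {F : ι → (Ed d l → G) → ℝ}
    (hF : ∀ i ∈ s, Continuous (F i)) :
    Zt μ L β (fun U => ∑ i ∈ s, F i U) = ∑ i ∈ s, Zt μ L β (F i) := by
  classical
  induction s using Finset.induction_on with
  | empty =>
    simp only [Finset.sum_empty]
    unfold Zt
    simp
  | insert a s ha ih =>
    simp only [Finset.sum_insert ha]
    rw [Zt_add μ (hF a (Finset.mem_insert_self a s))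
      (continuous_finsetSum _ fun i hi => hF i (Finset.mem_insert_of_mem hi)),
      ih fun i hi => hF i (Finset.mem_insert_of_mem hi)]

/-- the double sum of the correlations -/
lemma double_sum {l : ℕ} [NeZero l] {β : ℝ} {F : (Ed d l → G) → ℝ} (hF : Continuous F)
    {ι : Type*} (s : Finset ι) (a : ι → ℝ) (p q : ι → ZMod l) :
    Zt μ L β (fun U => (∑ i ∈ s, a i * Ft τ F (p i) U) * (∑ j ∈ s, a j * Ft τ F (q j) U)) =
      ∑ i ∈ s, ∑ j ∈ s, a i * a j * cor μ L β τ F (q j - p i) := by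
  have h1 : (fun U => (∑ i ∈ s, a i * Ft τ F (p i) U) * (∑ j ∈ s, a j * Ft τ F (q j) U)) =
      fun U => ∑ i ∈ s, ∑ j ∈ s, (a i * a j) * (Ft τ F (p i) U * Ft τ F (q j) U) := by
    funext U
    rw [Finset.sum_mul_sum]
    refine Finset.sum_congr rfl fun i _ => Finset.sum_congr rfl fun j _ => ?_
    ring
  have hc : ∀ i j, Continuous fun U : Ed d l → G =>
      (a i * a j) * (Ft τ F (p i) U * Ft τ F (q j) U) := fun i j =>
    continuous_const.mul ((Ft_cont hF _).mul (Ft_cont hF _))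
  rw [h1, Zt_sum μ s fun i _ => continuous_finsetSum _ fun j _ => hc i j]
  refine Finset.sum_congr rfl fun i _ => ?_
  rw [Zt_sum μ s fun j _ => hc i j]
  refine Finset.sum_congr rfl fun j _ => ?_
  rw [Zt_smul]
  congr 1
  exact cor_tr μ β F (p i) (q j)

/-- reflection in the plane between two slices -/
theorem psd_link (hm : 2 ≤ m) {β : ℝ} (hβ : 0 ≤ β) {F : (Ed d (2 * m) → G) → ℝ}
    (hc : Continuous F) (hg : GI F) (hF : Sp τ F) {ι : Type*} (s : Finset ι) (a : ι → ℝ)
    (k : ι → ℕ) (hk : ∀ i ∈ s, k i + 1 ≤ m) :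
    0 ≤ ∑ i ∈ s, ∑ j ∈ s, a i * a j * cor μ L β τ F ((k i + k j + 1 : ℕ) : ZMod (2 * m)) := by
  obtain ⟨c, hc0, hred⟩ := Zt_red μ (L := L) hm τ β
  obtain ⟨P, hP⟩ : ∃ P : (Ed d (2 * m) → G) → ℝ, P = fun U =>
    ∑ i ∈ s, a i * Ft τ F (-(k i : ZMod (2 * m))) U := ⟨_, rfl⟩
  obtain ⟨H, hH⟩ : ∃ H : (Ed d (2 * m) → G) → ℝ, H = fun U =>
    ∑ i ∈ s, a i * Ft τ F ((k i + 1 : ℕ) : ZMod (2 * m)) U := ⟨_, rfl⟩
  have hPc : Continuous P := by
    rw [hP]; exact continuous_finsetSum _ fun i _ => continuous_const.mul (Ft_cont hc _)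
  have hHc : Continuous H := by
    rw [hH]; exact continuous_finsetSum _ fun i _ => continuous_const.mul (Ft_cont hc _)
  have hgt : ∀ (z : ZMod (2 * m)) (γ) (U : Ed d (2 * m) → G), Ft τ F z (gt γ U) = Ft τ F z U :=
    fun z γ U => GI_tr hg (sv τ z) γ U
  have hPg : GI P := fun γ U => by
    rw [hP]
    exact Finset.sum_congr rfl fun i _ => by rw [hgt]
  have hHg : GI H := fun γ U => by
    rw [hH]
    exact Finset.sum_congr rfl fun i _ => by rw [hgt]
  have hPHc : Continuous fun U => P U * H U := hPc.mul hHc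
  have hPHg : GI fun U => P U * H U := fun γ U => by
    show P _ * H _ = P _ * H _
    rw [hPg, hHg]
  have e1 : Zt μ L β (fun U => P U * H U) =
      ∑ i ∈ s, ∑ j ∈ s, a i * a j * cor μ L β τ F ((k i + k j + 1 : ℕ) : ZMod (2 * m)) := by
    rw [hP, hH, double_sum μ hc]
    refine Finset.sum_congr rfl fun i _ => Finset.sum_congr rfl fun j _ => ?_
    congr 2
    push_cast
    ring
  have hHfix : ∀ U, H (fix τ U) = H U := fun U => by
    rw [hH]
    exact Finset.sum_congr rfl fun i _ => by unfold Ft; rw [sp_fix hF]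
  have hPfix : ∀ U, P (fix τ U) = P U := fun U => by
    rw [hP]
    exact Finset.sum_congr rfl fun i _ => by unfold Ft; rw [sp_fix hF]
  have hPH : ∀ U, P U = H ((TR hm τ).tU U) := fun U => by
    rw [hP, hH]
    refine Finset.sum_congr rfl fun i _ => ?_
    unfold Ft
    rw [sp_refl hm hF]
    congr 4
    push_cast
    ring
  have hdep : Dep (TR hm τ).R fun U => H U * (wR L β m τ).1 U := by
    intro U U' h
    have e2 := wR_dep (L := L) hm β τ U U' h
    have e3 : H U = H U' := by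
      rw [hH]
      refine Finset.sum_congr rfl fun i hi => ?_
      have h1 := sp_dep hm hF (k := ((k i + 1 : ℕ) : ZMod (2 * m)))
        (H1_nat (by omega) (hk i hi) hm) U U' h
      simp only at h1
      unfold Ft
      rw [h1]
    show H U * _ = H U' * _
    rw [e2, e3]
  have e4 : Zt μ L β (fun U => P U * H U) = c * (TR hm τ).B μ L β
      (fun U => H U * (wR L β m τ).1 U) (fun U => H U * (wR L β m τ).1 U) := by
    rw [hred _ hPHc hPHg]
    congr 1
    unfold Refl.Ew Refl.B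
    refine integral_congr_ae (Filter.Eventually.of_forall fun U => ?_)
    simp only
    rw [hPfix, hHfix, hPH]
    ring
  rw [← e1, e4]
  exact mul_nonneg hc0.le ((TR hm τ).B_self μ hβ (hHc.mul (Sm_cont _)) hdep)

lemma site_refl (hm : 2 ≤ m) {F : (Ed d (2 * m) → G) → ℝ} (hF : Sp τ F) (k : ZMod (2 * m))
    (U : Ed d (2 * m) → G) : Ft τ F k ((SR hm τ).tU U) = Ft τ F (-k) U := by
  refine hF _ _ fun x i hx hi => ?_
  unfold tr
  simp only
  rw [sU_ne _ _ hi]
  congr 2
  unfold rB sv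
  funext j
  by_cases hj : j = τ
  · subst hj
    simp [hx]
  · simp [hj]

lemma site_dep (hm : 2 ≤ m) {F : (Ed d (2 * m) → G) → ℝ} (hF : Sp τ F) {k : ℕ}
    (hk : k ≤ m) : Dep (HQ τ) (Ft τ F (k : ZMod (2 * m))) := by
  intro U U' h
  refine hF _ _ fun x i hx hi => ?_
  unfold tr
  refine h _ ?_
  show if i = τ then _ else _
  rw [if_neg hi]
  have h1 : (x + sv τ (k : ZMod (2 * m)) : Fin d → ZMod (2 * m)) τ = k := by
    simp [sv, hx]
  simp only [h1]
  rw [val_nat (by omega)]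
  exact hk

/-- reflection in a slice -/
theorem psd_site (hm : 2 ≤ m) {β : ℝ} {F : (Ed d (2 * m) → G) → ℝ}
    (hc : Continuous F) (hF : Sp τ F) {ι : Type*} (s : Finset ι) (a : ι → ℝ)
    (k : ι → ℕ) (hk : ∀ i ∈ s, k i ≤ m) :
    0 ≤ ∑ i ∈ s, ∑ j ∈ s, a i * a j * cor μ L β τ F ((k i + k j : ℕ) : ZMod (2 * m)) := by
  obtain ⟨P, hP⟩ : ∃ P : (Ed d (2 * m) → G) → ℝ, P = fun U =>
    ∑ i ∈ s, a i * Ft τ F (-(k i : ZMod (2 * m))) U := ⟨_, rfl⟩
  obtain ⟨H, hH⟩ : ∃ H : (Ed d (2 * m) → G) → ℝ, H = fun U =>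
    ∑ i ∈ s, a i * Ft τ F (k i : ZMod (2 * m)) U := ⟨_, rfl⟩
  have hHc : Continuous H := by
    rw [hH]; exact continuous_finsetSum _ fun i _ => continuous_const.mul (Ft_cont hc _)
  have e1 : Zt μ L β (fun U => P U * H U) =
      ∑ i ∈ s, ∑ j ∈ s, a i * a j * cor μ L β τ F ((k i + k j : ℕ) : ZMod (2 * m)) := by
    rw [hP, hH, double_sum μ hc]
    refine Finset.sum_congr rfl fun i _ => Finset.sum_congr rfl fun j _ => ?_
    congr 2
    push_cast
    ring
  have hPH : ∀ U, P U = H ((SR hm τ).tU U) := fun U => by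
    rw [hP, hH]
    refine Finset.sum_congr rfl fun i _ => ?_
    rw [site_refl hm hF]
  obtain ⟨f, hf⟩ : ∃ f : (Ed d (2 * m) → G) → ℝ, f = fun U =>
    H U * Real.exp (-(β * sS L τ U)) := ⟨_, rfl⟩
  have hfc : Continuous f := by
    rw [hf]
    exact hHc.mul (Real.continuous_exp.comp (continuous_const.mul (sS_cont τ)).neg)
  have hfd : Dep (fun e => PP τ e ∨ (SR hm τ).R e) f := by
    refine Dep_HQ hm fun U U' h => ?_
    have e3 : H U = H U' := by
      rw [hH]
      refine Finset.sum_congr rfl fun i hi => ?_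
      rw [site_dep hm hF (hk i hi) U U' h]
    rw [hf]
    show H U * _ = H U' * _
    rw [e3, sS_dep (L := L) hm U U' h]
  have e4 : Zt μ L β (fun U => P U * H U) = SB μ (SR hm τ) f f := by
    unfold Zt SB
    refine integral_congr_ae (Filter.Eventually.of_forall fun U => ?_)
    simp only
    rw [hPH, act_sS (i0 := τ) hm, hf]
    have h2 : ∀ a b : ℝ, Real.exp (-(β * (a + b))) =
        Real.exp (-(β * a)) * Real.exp (-(β * b)) := by
      intro a b
      rw [← Real.exp_add]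
      congr 1; ring
    rw [h2]
    ring
  rw [← e1, e4]
  exact SB_self μ (SR hm τ) (PP τ) PP_fix PP_th hfc hfd

/-- the connected correlation -/
def cc (L : LD G N n) {l : ℕ} [NeZero l] (β : ℝ) (τ : Fin d) (F : (Ed d l → G) → ℝ) (z : ZMod l) :
    ℝ := EX μ L β (fun U => F U * Ft τ F z U) - EX μ L β F ^ 2

lemma cc_eq {l : ℕ} [NeZero l] {β : ℝ} {F : (Ed d l → G) → ℝ} (hF : Continuous F) (z : ZMod l) :
    cor μ L β τ (fun U => F U - EX μ L β F) z =
      Zt μ L β (fun _ : Ed d l → G => 1) * cc μ L β τ F z := by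
  obtain ⟨c, hc⟩ : ∃ c, c = EX μ L β F := ⟨_, rfl⟩
  have hZ := Zt_pos μ (L := L) (d := d) (l := l) β
  have hcZ : Zt μ L β F = Zt μ L β (fun _ : Ed d l → G => 1) * c := by
    rw [hc]
    unfold EX
    field_simp
  have h1 : Zt μ L β (Ft τ F z) = Zt μ L β F := Zt_tr μ β (sv τ z) F
  have h2 : EX μ L β (fun U => F U * Ft τ F z U) =
      Zt μ L β (fun U => F U * Ft τ F z U) / Zt μ L β (fun _ : Ed d l → G => 1) := rfl
  unfold cor cc
  rw [← hc, h2]
  have h3 : (fun U : Ed d l → G => (F U - c) * (F (tr (sv τ z) U) - c)) =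
      fun U => (F U * Ft τ F z U + (-c) * Ft τ F z U) + ((-c) * F U + c ^ 2 * 1) := by
    funext U
    unfold Ft
    ring
  have c0 := Ft_cont hF (τ := τ) z
  have c1 : Continuous fun U : Ed d l → G => F U * Ft τ F z U := hF.mul c0
  have c2 : Continuous fun U : Ed d l → G => (-c) * Ft τ F z U := continuous_const.mul c0
  have c3 : Continuous fun U : Ed d l → G => (-c) * F U := continuous_const.mul hF
  have c4 : Continuous fun _ : Ed d l → G => c ^ 2 * (1 : ℝ) := continuous_const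
  have c5 : Continuous fun U : Ed d l → G => F U * Ft τ F z U + (-c) * Ft τ F z U := c1.add c2
  have c6 : Continuous fun U : Ed d l → G => (-c) * F U + c ^ 2 * (1 : ℝ) := c3.add c4
  rw [h3, Zt_add μ c5 c6, Zt_add μ c1 c2, Zt_add μ c3 c4, Zt_smul, Zt_smul, Zt_smul, h1, hcZ]
  field_simp
  ring

/-- the connected correlations are positive, site reflections -/
theorem cc_site (hm : 2 ≤ m) {β : ℝ} {F : (Ed d (2 * m) → G) → ℝ}
    (hc : Continuous F) (hF : Sp τ F) {ι : Type*} (s : Finset ι) (a : ι → ℝ)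
    (k : ι → ℕ) (hk : ∀ i ∈ s, k i ≤ m) :
    0 ≤ ∑ i ∈ s, ∑ j ∈ s, a i * a j * cc μ L β τ F ((k i + k j : ℕ) : ZMod (2 * m)) := by
  have hZ := Zt_pos μ (L := L) (d := d) (l := 2 * m) β
  have h1 := psd_site μ (L := L) (τ := τ) hm (β := β)
    (F := fun U => F U - EX μ L β F) (hc.sub continuous_const)
    (fun U U' h => by
      show F U - _ = F U' - _
      rw [hF U U' h]) s a k hk
  simp only [cc_eq μ hc] at h1
  have h2 : ∑ i ∈ s, ∑ j ∈ s, a i * a j * (Zt μ L β (fun _ : Ed d (2 * m) → G => 1) *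
      cc μ L β τ F ((k i + k j : ℕ) : ZMod (2 * m))) = Zt μ L β (fun _ : Ed d (2 * m) → G => 1) *
      ∑ i ∈ s, ∑ j ∈ s, a i * a j * cc μ L β τ F ((k i + k j : ℕ) : ZMod (2 * m)) := by
    rw [Finset.mul_sum]
    refine Finset.sum_congr rfl fun i _ => ?_
    rw [Finset.mul_sum]
    refine Finset.sum_congr rfl fun j _ => ?_
    ring
  rw [h2] at h1
  exact (mul_nonneg_iff_of_pos_left hZ).1 h1

/-- the connected correlations are positive, link reflections -/
theorem cc_link (hm : 2 ≤ m) {β : ℝ} (hβ : 0 ≤ β) {F : (Ed d (2 * m) → G) → ℝ}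
    (hc : Continuous F) (hg : GI F) (hF : Sp τ F) {ι : Type*} (s : Finset ι) (a : ι → ℝ)
    (k : ι → ℕ) (hk : ∀ i ∈ s, k i + 1 ≤ m) :
    0 ≤ ∑ i ∈ s, ∑ j ∈ s, a i * a j * cc μ L β τ F ((k i + k j + 1 : ℕ) : ZMod (2 * m)) := by
  have hZ := Zt_pos μ (L := L) (d := d) (l := 2 * m) β
  have h1 := psd_link μ (L := L) (τ := τ) hm hβ
    (F := fun U => F U - EX μ L β F) (hc.sub continuous_const)
    (fun γ U => by
      show F (gt γ U) - _ = F U - _
      rw [hg γ U])
    (fun U U' h => by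
      show F U - _ = F U' - _
      rw [hF U U' h]) s a k hk
  simp only [cc_eq μ hc] at h1
  have h2 : ∑ i ∈ s, ∑ j ∈ s, a i * a j * (Zt μ L β (fun _ : Ed d (2 * m) → G => 1) *
      cc μ L β τ F ((k i + k j + 1 : ℕ) : ZMod (2 * m))) =
      Zt μ L β (fun _ : Ed d (2 * m) → G => 1) *
      ∑ i ∈ s, ∑ j ∈ s, a i * a j * cc μ L β τ F ((k i + k j + 1 : ℕ) : ZMod (2 * m)) := by
    rw [Finset.mul_sum]
    refine Finset.sum_congr rfl fun i _ => ?_
    rw [Finset.mul_sum]
    refine Finset.sum_congr rfl fun j _ => ?_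
    ring
  rw [h2] at h1
  exact (mul_nonneg_iff_of_pos_left hZ).1 h1

/-- the plaquette in the directions `i`, `j` different from `τ` -/
lemma plq_sp {l : ℕ} [NeZero l] {i j : Fin d} (hi : i ≠ τ) (hj : j ≠ τ) :
    Sp τ fun U : Ed d l → G => rt L (plqT U 0 i j) := by
  intro U U' h
  show rt L (plqT U 0 i j) = rt L (plqT U' 0 i j)
  unfold plqT
  have e1 : ((0 + eT i : Fin d → ZMod l)) τ = 0 := by simp [eT, hi.symm]
  have e2 : ((0 + eT j : Fin d → ZMod l)) τ = 0 := by simp [eT, hj.symm]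
  rw [h 0 i rfl hi, h _ j e1 hj, h _ i e2 hi, h 0 j rfl hj]

lemma plq_gi {l : ℕ} [NeZero l] {i j : Fin d} (x : Fin d → ZMod l) :
    GI fun U : Ed d l → G => rt L (plqT U x i j) := by
  intro γ U
  show rt L (plqT (gt γ U) x i j) = _
  rw [plqT_gt, rt_conj]

lemma plq_cont {l : ℕ} [NeZero l] {i j : Fin d} (x : Fin d → ZMod l) :
    Continuous fun U : Ed d l → G => rt L (plqT U x i j) := by
  have hU : ∀ e : (Fin d → ZMod l) × Fin d, Continuous fun U : Ed d l → G => U e := fun e =>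
    continuous_apply e
  have h : Continuous fun U : Ed d l → G => plqT U x i j := by
    unfold plqT
    exact (((hU _).mul (hU _)).mul (hU _).inv).mul (hU _).inv
  exact rt_cont.comp h

end

end Pool.Agent.W2helper10.CP
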