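import Mathlib

/-!
# The moment problem of Hausdorff for bounded sequences with positive Hankel forms
-/

open Filter MeasureTheory Finset
open scoped Topology

namespace Pool.Agent.W2helper10.HS

noncomputable section

/-- a bounded sequence `a` such that the Hankel forms of `a` and of the shifted sequence are
positive -/
structure Hk (a : ℕ → ℝ) : Prop where
  p0 : ∀ (ι : Type) (s : Finset ι) (z : ι → ℝ) (k : ι → ℕ),
    0 ≤ ∑ i ∈ s, ∑ j ∈ s, z i * z j * a (k i + k j)
  p1 : ∀ (ι : Type) (s : Finset ι) (z : ι → ℝ) (k : ι → ℕ),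
    0 ≤ ∑ i ∈ s, ∑ j ∈ s, z i * z j * a (k i + k j + 1)
  bd : ∃ B, ∀ n, |a n| ≤ B

/-- a bounded nonnegative log-convex sequence decreases -/
lemma dec {b : ℕ → ℝ} (h0 : ∀ n, 0 ≤ b n) (h1 : ∀ n, b (n + 1) ^ 2 ≤ b n * b (n + 2)) {B : ℝ}
    (hB : ∀ n, b n ≤ B) (n : ℕ) : b (n + 1) ≤ b n := by
  by_contra hc
  push Not at hc
  have hn : 0 < b n := by
    rcases (h0 n).lt_or_eq with h | h
    · exact h
    · exfalso
      have h2 := h1 n
      rw [← h, zero_mul] at h2
      have h3 : b (n + 1) = 0 := by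
        have := sq_nonneg (b (n + 1))
        exact pow_eq_zero_iff (two_ne_zero) |>.1 (le_antisymm h2 this)
      rw [h3, ← h] at hc
      exact lt_irrefl _ hc
  obtain ⟨q, hq⟩ : ∃ q, q = b (n + 1) / b n := ⟨_, rfl⟩
  have hq1 : 1 < q := by rw [hq, one_lt_div hn]; exact hc
  have key : ∀ k : ℕ, 0 < b (n + k) ∧ q * b (n + k) ≤ b (n + k + 1) := by
    intro k
    induction k with
    | zero =>
      refine ⟨hn, le_of_eq ?_⟩
      rw [hq]
      simp only [add_zero]
      field_simp
    | succ k ih =>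
      obtain ⟨i1, i2⟩ := ih
      have i3 : 0 < b (n + k + 1) := lt_of_lt_of_le (by positivity) i2
      refine ⟨i3, ?_⟩
      have h2 := h1 (n + k)
      have e : n + (k + 1) = n + k + 1 := rfl
      rw [e]
      have h3 : n + k + 1 + 1 = n + k + 2 := rfl
      rw [h3]
      have h4 : q * b (n + k + 1) ^ 2 ≤ b (n + k + 1) * b (n + k + 2) := by
        calc q * b (n + k + 1) ^ 2 ≤ q * (b (n + k) * b (n + k + 2)) :=
              mul_le_mul_of_nonneg_left h2 (by linarith)
          _ = (q * b (n + k)) * b (n + k + 2) := by ring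
          _ ≤ _ := mul_le_mul_of_nonneg_right i2 (h0 _)
      have h5 : b (n + k + 1) * (q * b (n + k + 1)) ≤ b (n + k + 1) * b (n + k + 2) := by
        linarith
      exact le_of_mul_le_mul_left h5 i3
  have key2 : ∀ k : ℕ, q ^ k * b n ≤ b (n + k) := by
    intro k
    induction k with
    | zero => simp
    | succ k ih =>
      have := (key k).2
      calc q ^ (k + 1) * b n = q * (q ^ k * b n) := by ring
        _ ≤ q * b (n + k) := mul_le_mul_of_nonneg_left ih (by linarith)
        _ ≤ _ := this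
  obtain ⟨k, hk⟩ := pow_unbounded_of_one_lt (B / b n) hq1
  rw [div_lt_iff₀ hn] at hk
  have := key2 k
  have := hB (n + k)
  linarith

/-- the Hankel form -/
def fm (a : ℕ → ℝ) {ι : Type} (s : Finset ι) (z : ι → ℝ) (k : ι → ℕ) (m : ℕ) : ℝ :=
  ∑ i ∈ s, ∑ j ∈ s, z i * z j * a (k i + k j + m)

variable {a : ℕ → ℝ}

lemma fm_two (a : ℕ → ℝ) {ι : Type} (s : Finset ι) (z : ι → ℝ) (k : ι → ℕ) (m e : ℕ) (x y : ℝ) :
    ∑ i ∈ s ×ˢ (univ : Finset Bool), ∑ j ∈ s ×ˢ (univ : Finset Bool),
      (if i.2 then y * z i.1 else x * z i.1) * (if j.2 then y * z j.1 else x * z j.1) *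
        a ((if i.2 then k i.1 + m + 1 else k i.1 + m) +
          (if j.2 then k j.1 + m + 1 else k j.1 + m) + e) =
      x ^ 2 * fm a s z k (2 * m + e) + 2 * (x * y) * fm a s z k (2 * m + e + 1) +
        y ^ 2 * fm a s z k (2 * m + e + 2) := by
  simp only [Finset.sum_product, Fintype.sum_bool, if_true, Bool.false_eq_true, if_false, fm,
    Finset.mul_sum, ← Finset.sum_add_distrib]
  refine Finset.sum_congr rfl fun i _ => Finset.sum_congr rfl fun j _ => ?_
  have e1 : k i + m + 1 + (k j + m + 1) + e = k i + k j + (2 * m + e + 2) := by ring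
  have e2 : k i + m + 1 + (k j + m) + e = k i + k j + (2 * m + e + 1) := by ring
  have e3 : k i + m + (k j + m + 1) + e = k i + k j + (2 * m + e + 1) := by ring
  have e4 : k i + m + (k j + m) + e = k i + k j + (2 * m + e) := by ring
  rw [e1, e2, e3, e4]
  ring

lemma sq_le {A B C : ℝ} (h : ∀ x : ℝ, 0 ≤ A * (x * x) + 2 * B * x + C) : B ^ 2 ≤ A * C := by
  have := discrim_le_zero (a := A) (b := 2 * B) (c := C) h
  unfold discrim at this
  linarith

lemma Hk.quad (h : Hk a) {ι : Type} (s : Finset ι) (z : ι → ℝ) (k : ι → ℕ) (m : ℕ) (x y : ℝ) :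
    0 ≤ x ^ 2 * fm a s z k m + 2 * (x * y) * fm a s z k (m + 1) + y ^ 2 * fm a s z k (m + 2) := by
  obtain ⟨n, hn | hn⟩ := m.even_or_odd'
  · have h1 := h.p0 (ι × Bool) (s ×ˢ univ) (fun i => if i.2 then y * z i.1 else x * z i.1)
      (fun i => if i.2 then k i.1 + n + 1 else k i.1 + n)
    have h2 := fm_two a s z k n 0 x y
    simp only [add_zero] at h2
    rw [h2] at h1
    rw [hn]
    exact h1
  · have h1 := h.p1 (ι × Bool) (s ×ˢ univ) (fun i => if i.2 then y * z i.1 else x * z i.1)
      (fun i => if i.2 then k i.1 + n + 1 else k i.1 + n)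
    have h2 := fm_two a s z k n 1 x y
    rw [h2] at h1
    rw [hn]
    exact h1

lemma Hk.fm_nn (h : Hk a) {ι : Type} (s : Finset ι) (z : ι → ℝ) (k : ι → ℕ) (m : ℕ) :
    0 ≤ fm a s z k m := by
  have := h.quad s z k m 1 0
  simpa using this

lemma Hk.fm_dec (h : Hk a) {ι : Type} (s : Finset ι) (z : ι → ℝ) (k : ι → ℕ) (m : ℕ) :
    fm a s z k (m + 1) ≤ fm a s z k m := by
  obtain ⟨B, hB⟩ := h.bd
  refine dec (h.fm_nn s z k) (fun n => sq_le fun x => ?_)
    (B := ∑ i ∈ s, ∑ j ∈ s, |z i| * |z j| * B) (fun n => ?_) m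
  · have := h.quad s z k n x 1
    linarith
  · unfold fm
    refine Finset.sum_le_sum fun i _ => Finset.sum_le_sum fun j _ => ?_
    refine (le_abs_self _).trans ?_
    rw [abs_mul, abs_mul]
    exact mul_le_mul_of_nonneg_left (hB _) (by positivity)

lemma Hk.nn (h : Hk a) (n : ℕ) : 0 ≤ a n := by
  have := h.fm_nn (ι := Unit) univ (fun _ => 1) (fun _ => 0) n
  simpa [fm] using this

lemma Hk.le (h : Hk a) (n : ℕ) : a (n + 1) ≤ a n := by
  have := h.fm_dec (ι := Unit) univ (fun _ => 1) (fun _ => 0) n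
  simpa [fm] using this

lemma Hk.logc (h : Hk a) (n : ℕ) : a (n + 1) ^ 2 ≤ a n * a (n + 2) := by
  refine sq_le fun x => ?_
  have := h.quad (ι := Unit) univ (fun _ => 1) (fun _ => 0) n x 1
  simp [fm] at this
  linarith

/-- the differences -/
lemma Hk.diff (h : Hk a) : Hk fun n => a n - a (n + 1) := by
  obtain ⟨B, hB⟩ := h.bd
  refine ⟨fun ι s z k => ?_, fun ι s z k => ?_, ⟨B + B, fun n => ?_⟩⟩
  · have h1 := h.fm_dec s z k 0
    have e : ∑ i ∈ s, ∑ j ∈ s, z i * z j * (a (k i + k j) - a (k i + k j + 1)) =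
        fm a s z k 0 - fm a s z k (0 + 1) := by
      simp only [fm, mul_sub, Finset.sum_sub_distrib, add_zero, zero_add]
    rw [e]
    linarith
  · have h1 := h.fm_dec s z k 1
    have e : ∑ i ∈ s, ∑ j ∈ s, z i * z j * (a (k i + k j + 1) - a (k i + k j + 1 + 1)) =
        fm a s z k 1 - fm a s z k (1 + 1) := by
      simp only [fm, mul_sub, Finset.sum_sub_distrib, add_assoc]
    rw [e]
    linarith
  · exact (abs_sub _ _).trans (add_le_add (hB _) (hB _))

/-- the shift -/
def Es : Module.End ℝ (ℕ → ℝ) where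
  toFun a n := a (n + 1)
  map_add' _ _ := rfl
  map_smul' _ _ := rfl

/-- the difference operator -/
def Ds : Module.End ℝ (ℕ → ℝ) := 1 - Es

lemma Es_pow (m : ℕ) (a : ℕ → ℝ) (n : ℕ) : (Es ^ m) a n = a (n + m) := by
  induction m generalizing a n with
  | zero => rfl
  | succ m ih =>
    rw [pow_succ, Module.End.mul_apply, ih]
    rfl

lemma Ds_app (a : ℕ → ℝ) : Ds a = fun n => a n - a (n + 1) := rfl

lemma Hk.pow (h : Hk a) (m : ℕ) : Hk ((Ds ^ m) a) := by
  induction m with
  | zero => exact h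
  | succ m ih =>
    rw [pow_succ', Module.End.mul_apply, Ds_app]
    exact ih.diff

/-- the binomial identity -/
lemma binom (a : ℕ → ℝ) (M n : ℕ) :
    ∑ i ∈ range (M + 1), (M.choose i : ℝ) * (Ds ^ (M - i)) a (n + i) = a n := by
  have hc : Commute Es Ds := by
    unfold Ds
    exact (Commute.one_right _).sub_right (Commute.refl _)
  have h1 := hc.add_pow M
  have h2 : Es + Ds = (1 : Module.End ℝ (ℕ → ℝ)) := by unfold Ds; abel
  rw [h2, one_pow] at h1
  have h3 := congrFun (congrArg (fun f : Module.End ℝ (ℕ → ℝ) => f a) h1) n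
  simp only [Module.End.one_apply] at h3
  rw [LinearMap.sum_apply, Finset.sum_apply] at h3
  rw [h3]
  refine Finset.sum_congr rfl fun i _ => ?_
  have e : (Es ^ i * Ds ^ (M - i) * (M.choose i : Module.End ℝ (ℕ → ℝ))) a n =
      (M.choose i : ℝ) * (Es ^ i) ((Ds ^ (M - i)) a) n := by
    rw [mul_assoc, Module.End.mul_apply, Module.End.mul_apply]
    have e2 : ((M.choose i : Module.End ℝ (ℕ → ℝ))) a = (M.choose i : ℝ) • a := by
      rw [Module.End.natCast_apply, Nat.cast_smul_eq_nsmul]
    rw [e2, map_smul, map_smul]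
    rfl
  rw [e, Es_pow]

/-- the weights -/
def wt (a : ℕ → ℝ) (m j : ℕ) : ℝ := (m.choose j : ℝ) * (Ds ^ (m - j)) a j

lemma Hk.wt_nn (h : Hk a) (m j : ℕ) : 0 ≤ wt a m j :=
  mul_nonneg (Nat.cast_nonneg _) ((h.pow _).nn _)

/-- the factorial moments -/
lemma wt_fact (a : ℕ → ℝ) {m n : ℕ} (hn : n ≤ m) :
    ∑ j ∈ range (m + 1), wt a m j * (j.descFactorial n : ℝ) = (m.descFactorial n : ℝ) * a n := by
  have h1 := binom a (m - n) n
  rw [← h1, Finset.mul_sum]
  have h2 : range (m + 1) = range n ∪ Finset.image (fun i => n + i) (range (m - n + 1)) := by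
    ext j
    simp only [Finset.mem_union, Finset.mem_range, Finset.mem_image]
    constructor
    · intro hj
      rcases lt_or_ge j n with h | h
      · exact Or.inl h
      · exact Or.inr ⟨j - n, by omega, by omega⟩
    · rintro (h | ⟨i, hi, rfl⟩)
      · omega
      · omega
  rw [h2, Finset.sum_union, Finset.sum_image]
  · have h3 : ∑ j ∈ range n, wt a m j * (j.descFactorial n : ℝ) = 0 := by
      refine Finset.sum_eq_zero fun j hj => ?_
      rw [Finset.mem_range] at hj
      rw [Nat.descFactorial_of_lt hj]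
      simp
    rw [h3, zero_add]
    refine Finset.sum_congr rfl fun i hi => ?_
    rw [Finset.mem_range] at hi
    unfold wt
    have e1 : m - (n + i) = m - n - i := by omega
    rw [e1]
    have e2 : m.choose (n + i) * (n + i).descFactorial n =
        m.descFactorial n * (m - n).choose i := by
      rw [Nat.descFactorial_eq_factorial_mul_choose, Nat.descFactorial_eq_factorial_mul_choose]
      have e3 := Nat.choose_mul (n := m) (k := n + i) (s := n) (by omega)
      have e4 : n + i - n = i := by omega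
      rw [e4] at e3
      calc m.choose (n + i) * (n.factorial * (n + i).choose n) =
          n.factorial * (m.choose (n + i) * (n + i).choose n) := by ring
        _ = _ := by rw [e3]; ring
    have e5 : (m.choose (n + i) : ℝ) * ((n + i).descFactorial n : ℝ) =
        (m.descFactorial n : ℝ) * ((m - n).choose i : ℝ) := by exact_mod_cast e2
    calc _ = ((m.choose (n + i) : ℝ) * ((n + i).descFactorial n : ℝ)) *
          (Ds ^ (m - n - i)) a (n + i) := by ring
      _ = _ := by rw [e5]; ring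
  · intro x _ y _ hxy
    simpa using hxy
  · rw [Finset.disjoint_left]
    intro j hj hj'
    simp only [Finset.mem_range, Finset.mem_image] at hj hj'
    obtain ⟨i, _, rfl⟩ := hj'
    omega

lemma wt_sum (a : ℕ → ℝ) (m : ℕ) : ∑ j ∈ range (m + 1), wt a m j = a 0 := by
  have := wt_fact a (Nat.zero_le m)
  simpa using this

/-- the comparison of the powers with the factorial powers -/
lemma fact_close (n : ℕ) {m j : ℕ} (hj : j ≤ m) (hm : n < m) :
    |((j : ℝ) / m) ^ n - (j.descFactorial n : ℝ) / (m.descFactorial n : ℝ)| ≤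
      n * n / ((m : ℝ) - n) := by
  induction n with
  | zero => simp
  | succ n ih =>
    have hnm : n < m := by omega
    have ih := ih hnm
    have hmR : (0 : ℝ) < m := by
      have : 0 < m := by omega
      exact_mod_cast this
    have hmn : (0 : ℝ) < (m : ℝ) - n := by
      have : (n : ℝ) < m := by exact_mod_cast hnm
      linarith
    have hmn1 : (0 : ℝ) < (m : ℝ) - (n + 1 : ℕ) := by
      have : ((n + 1 : ℕ) : ℝ) < m := by exact_mod_cast hm
      linarith
    have hjm : (j : ℝ) ≤ m := by exact_mod_cast hj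
    have hx0 : (0 : ℝ) ≤ (j : ℝ) / m := by positivity
    have hx1 : (j : ℝ) / m ≤ 1 := by rw [div_le_one hmR]; exact hjm
    have hdm : (0 : ℝ) < (m.descFactorial n : ℝ) := by
      have := Nat.descFactorial_pos.2 hnm.le
      exact_mod_cast this
    have hA0 : (0 : ℝ) ≤ (j.descFactorial n : ℝ) / (m.descFactorial n : ℝ) := by positivity
    have hA1 : (j.descFactorial n : ℝ) / (m.descFactorial n : ℝ) ≤ 1 := by
      rw [div_le_one hdm]
      exact_mod_cast Nat.descFactorial_le n hj
    have e1 : (j.descFactorial (n + 1) : ℝ) / (m.descFactorial (n + 1) : ℝ) =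
        ((j - n : ℕ) : ℝ) / ((m : ℝ) - n) *
          ((j.descFactorial n : ℝ) / (m.descFactorial n : ℝ)) := by
      rw [Nat.descFactorial_succ, Nat.descFactorial_succ]
      push_cast
      rw [Nat.cast_sub hnm.le]
      field_simp
    have h1 : |(j : ℝ) / m - ((j - n : ℕ) : ℝ) / ((m : ℝ) - n)| ≤ n / ((m : ℝ) - n) := by
      rcases lt_or_ge j n with h | h
      · have : j - n = 0 := by omega
        rw [this]
        simp only [Nat.cast_zero, zero_div, sub_zero]
        rw [abs_of_nonneg hx0, div_le_div_iff₀ hmR hmn]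
        have hjn : (j : ℝ) ≤ n := by exact_mod_cast h.le
        have a1 : (j : ℝ) * (m - n) ≤ n * (m - n) := mul_le_mul_of_nonneg_right hjn hmn.le
        have a2 : (n : ℝ) * (m - n) ≤ n * m :=
          mul_le_mul_of_nonneg_left (by linarith [Nat.cast_nonneg (α := ℝ) n]) (Nat.cast_nonneg _)
        linarith
      · rw [Nat.cast_sub h]
        have e2 : (j : ℝ) / m - ((j : ℝ) - n) / ((m : ℝ) - n) =
            (n * ((m : ℝ) - j) / m) / ((m : ℝ) - n) := by
          field_simp
          ring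
        have h3 : 0 ≤ (m : ℝ) - j := by linarith
        rw [e2, abs_of_nonneg (by positivity)]
        refine div_le_div_of_nonneg_right ?_ hmn.le
        rw [div_le_iff₀ hmR]
        exact mul_le_mul_of_nonneg_left (by linarith [Nat.cast_nonneg (α := ℝ) j])
          (Nat.cast_nonneg _)
    have e3 : ((j : ℝ) / m) ^ (n + 1) - (j.descFactorial (n + 1) : ℝ) /
        (m.descFactorial (n + 1) : ℝ) = (j : ℝ) / m * (((j : ℝ) / m) ^ n -
          (j.descFactorial n : ℝ) / (m.descFactorial n : ℝ)) +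
        ((j : ℝ) / m - ((j - n : ℕ) : ℝ) / ((m : ℝ) - n)) *
          ((j.descFactorial n : ℝ) / (m.descFactorial n : ℝ)) := by
      rw [e1]; ring
    rw [e3]
    have h4 : |(j : ℝ) / m * (((j : ℝ) / m) ^ n -
          (j.descFactorial n : ℝ) / (m.descFactorial n : ℝ))| ≤ n * n / ((m : ℝ) - n) := by
      rw [abs_mul, abs_of_nonneg hx0]
      calc _ ≤ 1 * (n * n / ((m : ℝ) - n)) := mul_le_mul hx1 ih (abs_nonneg _) zero_le_one
        _ = _ := one_mul _
    have h5 : |((j : ℝ) / m - ((j - n : ℕ) : ℝ) / ((m : ℝ) - n)) *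
          ((j.descFactorial n : ℝ) / (m.descFactorial n : ℝ))| ≤ n / ((m : ℝ) - n) := by
      rw [abs_mul, abs_of_nonneg hA0]
      calc _ ≤ n / ((m : ℝ) - n) * 1 := mul_le_mul h1 hA1 hA0 (by positivity)
        _ = _ := mul_one _
    refine (abs_add_le _ _).trans ((add_le_add h4 h5).trans ?_)
    rw [← add_div]
    have hn0 : (0 : ℝ) ≤ n := Nat.cast_nonneg n
    refine div_le_div₀ (by positivity) ?_ hmn1 ?_
    · push_cast
      nlinarith
    · push_cast
      linarith

/-- the moments of the discrete measures -/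
lemma wt_mom (h : Hk a) (n : ℕ) : Tendsto (fun m : ℕ => ∑ j ∈ range (m + 1),
    wt a m j * ((j : ℝ) / m) ^ n) atTop (𝓝 (a n)) := by
  have h1 : Tendsto (fun m : ℕ => a 0 * (n * n / ((m : ℝ) - n))) atTop (𝓝 0) := by
    have h2 : Tendsto (fun m : ℕ => (m : ℝ) - n) atTop atTop :=
      tendsto_atTop_add_const_right _ _ tendsto_natCast_atTop_atTop
    have h3 := (tendsto_inv_atTop_zero.comp h2).const_mul (a 0 * (n * n))
    rw [mul_zero] at h3
    refine h3.congr fun m => ?_
    simp only [Function.comp_apply]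
    ring
  rw [tendsto_iff_norm_sub_tendsto_zero]
  refine squeeze_zero' (Filter.Eventually.of_forall fun _ => norm_nonneg _) ?_ h1
  filter_upwards [eventually_gt_atTop n] with m hm
  have hdm : (m.descFactorial n : ℝ) ≠ 0 := by
    have := Nat.descFactorial_pos.2 hm.le
    exact_mod_cast this.ne'
  have e : a n = ∑ j ∈ range (m + 1), wt a m j *
      ((j.descFactorial n : ℝ) / (m.descFactorial n : ℝ)) := by
    have h2 := wt_fact a hm.le
    have h3 : ∀ j, wt a m j * ((j.descFactorial n : ℝ) / (m.descFactorial n : ℝ)) =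
        wt a m j * (j.descFactorial n : ℝ) * (1 / (m.descFactorial n : ℝ)) := fun j => by ring
    simp only [h3]
    rw [← Finset.sum_mul, h2]
    field_simp
  rw [Real.norm_eq_abs]
  rw [e]
  rw [← Finset.sum_sub_distrib, ← wt_sum a m, Finset.sum_mul]
  refine (Finset.abs_sum_le_sum_abs _ _).trans (Finset.sum_le_sum fun j hj => ?_)
  rw [Finset.mem_range] at hj
  rw [← mul_sub, abs_mul, abs_of_nonneg (h.wt_nn m j)]
  exact mul_le_mul_of_nonneg_left (fact_close n (by omega) hm) (h.wt_nn m j)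

/-- the unit interval -/
abbrev UI := Set.Icc (0 : ℝ) 1

/-- the atoms -/
def pt (m j : ℕ) : UI := Set.projIcc (0 : ℝ) 1 zero_le_one ((j : ℝ) / m)

lemma pt_coe {m j : ℕ} (hj : j ≤ m) : ((pt m j : UI) : ℝ) = (j : ℝ) / m := by
  unfold pt
  rw [Set.projIcc_of_mem zero_le_one]
  refine ⟨by positivity, ?_⟩
  refine div_le_one_of_le₀ (by exact_mod_cast hj) (Nat.cast_nonneg _)

/-- the discrete measures -/
def dm (a : ℕ → ℝ) (m : ℕ) : Measure UI :=
  ∑ j ∈ range (m + 1), ENNReal.ofReal (wt a m j) • Measure.dirac (pt m j)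

lemma dm_prob (h : Hk a) (h0 : a 0 = 1) (m : ℕ) : IsProbabilityMeasure (dm a m) := by
  refine ⟨?_⟩
  unfold dm
  rw [Measure.finsetSum_apply]
  simp only [Measure.smul_apply, measure_univ, smul_eq_mul, mul_one]
  rw [← ENNReal.ofReal_sum_of_nonneg fun j _ => h.wt_nn m j, wt_sum, h0, ENNReal.ofReal_one]

lemma dm_int (h : Hk a) (m : ℕ) (f : UI → ℝ) (hf : Continuous f) :
    ∫ x, f x ∂(dm a m) = ∑ j ∈ range (m + 1), wt a m j * f (pt m j) := by
  unfold dm
  rw [integral_finsetSum_measure]
  · refine Finset.sum_congr rfl fun j _ => ?_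
    rw [integral_smul_measure, integral_dirac, ENNReal.toReal_ofReal (h.wt_nn m j), smul_eq_mul]
  · intro j _
    exact (hf.integrable_of_hasCompactSupport (HasCompactSupport.of_compactSpace _)).smul_measure
      ENNReal.ofReal_ne_top

/-- **Hausdorff's theorem** -/
theorem haus (h : Hk a) (h0 : a 0 = 1) : ∃ P : ProbabilityMeasure UI,
    ∀ n : ℕ, ∫ x : UI, (x : ℝ) ^ n ∂(P : Measure UI) = a n := by
  obtain ⟨Q, hQ⟩ : ∃ Q : ℕ → ProbabilityMeasure UI, ∀ m, (Q m : Measure UI) = dm a m :=
    ⟨fun m => ⟨dm a m, dm_prob h h0 m⟩, fun m => rfl⟩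
  obtain ⟨P, φ, hφ, hlim⟩ := CompactSpace.tendsto_subseq Q
  refine ⟨P, fun n => ?_⟩
  have hc : Continuous fun x : UI => (x : ℝ) ^ n := continuous_subtype_val.pow n
  have h1 := (ProbabilityMeasure.tendsto_iff_forall_integral_tendsto.1 hlim)
    (BoundedContinuousFunction.mkOfCompact ⟨_, hc⟩)
  simp only [Function.comp_apply, BoundedContinuousFunction.mkOfCompact_apply,
    ContinuousMap.coe_mk, hQ] at h1
  refine tendsto_nhds_unique h1 (((wt_mom h n).comp hφ.tendsto_atTop).congr fun m => ?_)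
  rw [dm_int h _ _ hc]
  simp only [Function.comp_apply]
  refine Finset.sum_congr rfl fun j hj => ?_
  rw [Finset.mem_range] at hj
  rw [pt_coe (by omega)]

end

end Pool.Agent.W2helper10.HS
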