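import Mathlib
import Pool.Agent.W2helper10.Haus

/-!
# Reflection positive functions on the half line are Laplace transforms
-/

open Filter MeasureTheory
open scoped Topology

namespace Pool.Agent.W2helper10.BN

open Pool.Agent.W2helper10.HS

noncomputable section

/-- positive, decreasing, continuous and reflection positive functions of the time -/
structure Os (g : ℝ → ℝ) : Prop where
  cont : ContinuousOn g (Set.Ioi 0)
  pos : ∀ x, 0 < x → 0 < g x
  anti : ∀ x y, 0 < x → x ≤ y → g y ≤ g x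
  one : g 1 = 1
  psd : ∀ (ι : Type) (s : Finset ι) (z τ : ι → ℝ), (∀ i, 0 < τ i) →
    0 ≤ ∑ i ∈ s, ∑ j ∈ s, z i * z j * g (τ i + τ j)

variable {g : ℝ → ℝ}

lemma Os.hk (h : Os g) {t0 δ : ℝ} (ht : 0 < t0) (hδ : 0 < δ) :
    Hk fun n : ℕ => g (t0 + n * δ) / g t0 := by
  have hg := h.pos t0 ht
  have key : ∀ (ι : Type) (s : Finset ι) (z : ι → ℝ) (k : ι → ℕ) (t1 : ℝ), 0 < t1 →
      0 ≤ ∑ i ∈ s, ∑ j ∈ s, z i * z j * (g (t1 + ((k i + k j : ℕ) : ℝ) * δ) / g t0) := by
    intro ι s z k t1 ht1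
    have h1 := h.psd ι s z (fun i => t1 / 2 + k i * δ) (fun i => by positivity)
    have e : ∑ i ∈ s, ∑ j ∈ s, z i * z j * (g (t1 + ((k i + k j : ℕ) : ℝ) * δ) / g t0) =
        (∑ i ∈ s, ∑ j ∈ s, z i * z j * g (t1 / 2 + k i * δ + (t1 / 2 + k j * δ))) / g t0 := by
      rw [Finset.sum_div]
      refine Finset.sum_congr rfl fun i _ => ?_
      rw [Finset.sum_div]
      refine Finset.sum_congr rfl fun j _ => ?_
      have e2 : t1 + ((k i + k j : ℕ) : ℝ) * δ = t1 / 2 + k i * δ + (t1 / 2 + k j * δ) := by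
        push_cast
        ring
      rw [e2]
      ring
    rw [e]
    positivity
  refine ⟨fun ι s z k => key ι s z k t0 ht, fun ι s z k => ?_, ⟨1, fun n => ?_⟩⟩
  · have h1 := key ι s z k (t0 + δ) (by positivity)
    refine le_trans h1 (le_of_eq ?_)
    refine Finset.sum_congr rfl fun i _ => Finset.sum_congr rfl fun j _ => ?_
    have e2 : t0 + δ + ((k i + k j : ℕ) : ℝ) * δ = t0 + ((k i + k j + 1 : ℕ) : ℝ) * δ := by
      push_cast
      ring
    rw [e2]
  · have h1 := h.anti t0 (t0 + n * δ) ht (by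
      have : 0 ≤ (n : ℝ) * δ := by positivity
      linarith)
    have h2 := h.pos (t0 + n * δ) (by positivity)
    rw [abs_of_nonneg (by positivity), div_le_one hg]
    exact h1

/-- the power map -/
def pw (N : ℕ) (x : UI) : UI :=
  ⟨(x : ℝ) ^ (N + 1), pow_nonneg x.2.1 _, pow_le_one₀ x.2.1 x.2.2⟩

lemma pw_cont (N : ℕ) : Continuous (pw N) :=
  (continuous_subtype_val.pow _).subtype_mk _

lemma rp_cont {q : ℝ} (hq : 0 ≤ q) : Continuous fun y : UI => (y : ℝ) ^ q :=
  (Real.continuous_rpow_const hq).comp continuous_subtype_val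

lemma int_of_cont {f : UI → ℝ} (hf : Continuous f) (μ : Measure UI) [IsFiniteMeasure μ] :
    Integrable f μ :=
  hf.integrable_of_hasCompactSupport (HasCompactSupport.of_compactSpace _)

/-- the bounds of the powers -/
lemma pw_bd (N : ℕ) {q : ℝ} (hq : 0 ≤ q) (x : UI) :
    (x : ℝ) ^ (⌊q * (N + 1 : ℕ)⌋₊ + 1) ≤ ((pw N x : UI) : ℝ) ^ q ∧
      ((pw N x : UI) : ℝ) ^ q ≤ (x : ℝ) ^ ⌊q * (N + 1 : ℕ)⌋₊ := by
  have hx0 := x.2.1
  have hx1 := x.2.2
  show (x : ℝ) ^ (⌊q * (N + 1 : ℕ)⌋₊ + 1) ≤ ((x : ℝ) ^ (N + 1)) ^ q ∧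
    ((x : ℝ) ^ (N + 1)) ^ q ≤ (x : ℝ) ^ ⌊q * (N + 1 : ℕ)⌋₊
  rcases hx0.lt_or_eq with hx | hx
  · have e : ((x : ℝ) ^ (N + 1)) ^ q = (x : ℝ) ^ (q * (N + 1 : ℕ)) := by
      rw [← Real.rpow_natCast, ← Real.rpow_mul hx0, mul_comm]
    rw [e]
    constructor
    · rw [← Real.rpow_natCast]
      refine Real.rpow_le_rpow_of_exponent_ge hx hx1 ?_
      push_cast
      have := Nat.lt_floor_add_one (q * (N + 1 : ℕ))
      push_cast at this
      linarith
    · rw [← Real.rpow_natCast]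
      refine Real.rpow_le_rpow_of_exponent_ge hx hx1 ?_
      exact Nat.floor_le (by positivity)
  · rw [← hx]
    rcases hq.lt_or_eq with hq' | hq'
    · simp only [ne_eq, Nat.add_eq_zero_iff, one_ne_zero, and_false, not_false_eq_true, zero_pow]
      rw [Real.zero_rpow hq'.ne']
      exact ⟨le_rfl, by positivity⟩
    · rw [← hq']
      simp

lemma lap0 (h : Os g) {t0 : ℝ} (ht : 0 < t0) : ∃ R : ProbabilityMeasure UI,
    ∀ q : ℝ, 0 ≤ q → ∫ y : UI, (y : ℝ) ^ q ∂(R : Measure UI) = g (t0 + q) / g t0 := by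
  have hg := h.pos t0 ht
  have hex : ∀ N : ℕ, ∃ P : ProbabilityMeasure UI, ∀ n : ℕ,
      ∫ x : UI, (x : ℝ) ^ n ∂(P : Measure UI) = g (t0 + n * (1 / (N + 1 : ℕ))) / g t0 := by
    intro N
    refine haus (h.hk ht (by positivity)) ?_
    simp only [Nat.cast_zero, zero_mul, add_zero]
    exact div_self hg.ne'
  choose P hP using hex
  obtain ⟨Q, hQ⟩ : ∃ Q : ℕ → ProbabilityMeasure UI, ∀ (N : ℕ) (f : UI → ℝ), Continuous f →
      ∫ y, f y ∂(Q N : Measure UI) = ∫ x, f (pw N x) ∂(P N : Measure UI) := by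
    refine ⟨fun N => (P N).map (pw_cont N).aemeasurable, fun N f hf => ?_⟩
    rw [ProbabilityMeasure.toMeasure_map, integral_map (pw_cont N).aemeasurable
      hf.aestronglyMeasurable]
  obtain ⟨R, φ, hφ, hlim⟩ := CompactSpace.tendsto_subseq Q
  refine ⟨R, fun q hq => ?_⟩
  have hc := rp_cont hq
  have h1 := (ProbabilityMeasure.tendsto_iff_forall_integral_tendsto.1 hlim)
    (BoundedContinuousFunction.mkOfCompact ⟨_, hc⟩)
  simp only [Function.comp_apply, BoundedContinuousFunction.mkOfCompact_apply,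
    ContinuousMap.coe_mk] at h1
  refine tendsto_nhds_unique h1 ?_
  have hcat : ContinuousAt g (t0 + q) := h.cont.continuousAt (Ioi_mem_nhds (by positivity))
  have hN : Tendsto (fun N : ℕ => ((N + 1 : ℕ) : ℝ)) atTop atTop :=
    tendsto_natCast_atTop_atTop.comp (tendsto_add_atTop_nat 1)
  have hfl : Tendsto (fun N : ℕ => (⌊q * (N + 1 : ℕ)⌋₊ : ℝ) / (N + 1 : ℕ)) atTop (𝓝 q) :=
    (tendsto_nat_floor_mul_div_atTop hq).comp hN
  have hinv : Tendsto (fun N : ℕ => 1 / ((N + 1 : ℕ) : ℝ)) atTop (𝓝 0) := by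
    simp only [one_div]
    exact tendsto_inv_atTop_zero.comp hN
  have up : Tendsto (fun N : ℕ => g (t0 + (⌊q * (N + 1 : ℕ)⌋₊ : ℝ) * (1 / (N + 1 : ℕ))) / g t0)
      atTop (𝓝 (g (t0 + q) / g t0)) := by
    refine Tendsto.div_const ?_ _
    refine hcat.tendsto.comp ?_
    refine (hfl.const_add t0).congr fun N => ?_
    ring
  have low : Tendsto (fun N : ℕ => g (t0 + ((⌊q * (N + 1 : ℕ)⌋₊ + 1 : ℕ) : ℝ) *
      (1 / (N + 1 : ℕ))) / g t0) atTop (𝓝 (g (t0 + q) / g t0)) := by
    refine Tendsto.div_const ?_ _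
    refine hcat.tendsto.comp ?_
    have h2 := (hfl.add hinv).const_add t0
    rw [add_zero] at h2
    refine h2.congr fun N => ?_
    push_cast
    ring
  refine tendsto_of_tendsto_of_tendsto_of_le_of_le (low.comp hφ.tendsto_atTop)
    (up.comp hφ.tendsto_atTop) (fun m => ?_) (fun m => ?_)
  · simp only [Function.comp_apply]
    rw [← hP (φ m) (⌊q * (φ m + 1 : ℕ)⌋₊ + 1), hQ _ _ hc]
    exact integral_mono (int_of_cont (continuous_subtype_val.pow _) _)
      (int_of_cont (hc.comp (pw_cont _)) _) fun x => (pw_bd (φ m) hq x).1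
  · simp only [Function.comp_apply]
    rw [← hP (φ m) ⌊q * (φ m + 1 : ℕ)⌋₊, hQ _ _ hc]
    exact integral_mono (int_of_cont (hc.comp (pw_cont _)) _)
      (int_of_cont (continuous_subtype_val.pow _) _) fun x => (pw_bd (φ m) hq x).2

/-- finite measures on the unit interval with the same moments are equal -/
lemma mom_unique {μ ν : Measure UI} [IsFiniteMeasure μ] [IsFiniteMeasure ν]
    (h : ∀ n : ℕ, ∫ x : UI, (x : ℝ) ^ n ∂μ = ∫ x : UI, (x : ℝ) ^ n ∂ν) : μ = ν := by
  have hpol : ∀ p : Polynomial ℝ, ∫ x : UI, p.eval (x : ℝ) ∂μ = ∫ x : UI, p.eval (x : ℝ) ∂ν := by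
    intro p
    simp only [Polynomial.eval_eq_sum_range]
    rw [integral_finsetSum, integral_finsetSum]
    · refine Finset.sum_congr rfl fun i _ => ?_
      rw [integral_const_mul, integral_const_mul, h]
    · intro i _
      exact int_of_cont (continuous_const.mul (continuous_subtype_val.pow _)) _
    · intro i _
      exact int_of_cont (continuous_const.mul (continuous_subtype_val.pow _)) _
  refine ext_of_forall_integral_eq_of_IsFiniteMeasure fun f => ?_
  obtain ⟨M, hM⟩ : ∃ M : ℝ, M = μ.real Set.univ + ν.real Set.univ + 1 := ⟨_, rfl⟩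
  have hM0 : 0 < M := by
    have h1 : 0 ≤ μ.real Set.univ := measureReal_nonneg
    have h2 : 0 ≤ ν.real Set.univ := measureReal_nonneg
    rw [hM]; linarith
  by_contra hne
  obtain ⟨ε, hε⟩ : ∃ ε : ℝ, ε = |∫ x, f x ∂μ - ∫ x, f x ∂ν| / M := ⟨_, rfl⟩
  have hε0 : 0 < ε := by
    rw [hε]
    exact div_pos (abs_pos.2 (sub_ne_zero.2 hne)) hM0
  obtain ⟨p, hp⟩ := exists_polynomial_near_continuousMap 0 1
    (⟨f, f.continuous⟩ : C(UI, ℝ)) ε hε0
  have hp' : ∀ x : UI, |p.eval (x : ℝ) - f x| ≤ ε := fun x => by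
    have := (ContinuousMap.norm_coe_le_norm
      (p.toContinuousMapOn (Set.Icc 0 1) - (⟨f, f.continuous⟩ : C(UI, ℝ))) x).trans hp.le
    simpa using this
  have hb : ∀ (κ : Measure UI) [IsFiniteMeasure κ],
      |∫ x : UI, p.eval (x : ℝ) ∂κ - ∫ x, f x ∂κ| ≤ ε * κ.real Set.univ := by
    intro κ _
    have hi : Integrable (fun x : UI => p.eval (x : ℝ)) κ :=
      int_of_cont (p.continuous.comp continuous_subtype_val) κ
    rw [← integral_sub hi (int_of_cont f.continuous κ)]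
    exact norm_integral_le_of_norm_le_const (f := fun x : UI => p.eval (x : ℝ) - f x) (C := ε)
      (Filter.Eventually.of_forall fun x => hp' x)
  have h1 := hb μ
  have h2 := hb ν
  rw [hpol p] at h1
  have h3 : |∫ x, f x ∂μ - ∫ x, f x ∂ν| ≤ ε * μ.real Set.univ + ε * ν.real Set.univ := by
    have e : ∫ x, f x ∂μ - ∫ x, f x ∂ν = (∫ x : UI, p.eval (x : ℝ) ∂ν - ∫ x, f x ∂ν) -
        (∫ x : UI, p.eval (x : ℝ) ∂ν - ∫ x, f x ∂μ) := by ring
    rw [e]
    refine (abs_sub _ _).trans ?_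
    linarith
  have h4 : |∫ x, f x ∂μ - ∫ x, f x ∂ν| = ε * M := by
    rw [hε]; field_simp
  rw [h4, hM] at h3
  linarith

/-- the tilted measures -/
lemma tilt (h : Os g) {ρ : Measure UI} [IsFiniteMeasure ρ]
    (hρ : ∀ n : ℕ, ∫ y : UI, (y : ℝ) ^ n ∂ρ = g (1 + n)) {t0 : ℝ} (ht : 0 < t0) (ht1 : t0 < 1) :
    ρ {0} = 0 ∧ ∀ x : ℝ, t0 < x → Integrable (fun y : UI => (y : ℝ) ^ (x - 1)) ρ ∧
      ∫ y : UI, (y : ℝ) ^ (x - 1) ∂ρ = g x := by
  have hg := h.pos t0 ht
  obtain ⟨R, hR⟩ := lap0 h ht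
  have hc1 := rp_cont (q := 1 - t0) (by linarith)
  obtain ⟨w, hwc, hw⟩ : ∃ w : UI → NNReal, Continuous w ∧
      ∀ y, (w y : ℝ) = g t0 * (y : ℝ) ^ (1 - t0) :=
    ⟨fun y => ⟨g t0 * (y : ℝ) ^ (1 - t0), mul_nonneg hg.le (Real.rpow_nonneg y.2.1 _)⟩,
      (continuous_const.mul hc1).subtype_mk _, fun y => rfl⟩
  obtain ⟨ρ', hρ'⟩ : ∃ ρ' : Measure UI, ρ' = (R : Measure UI).withDensity fun y => (w y : ENNReal) :=
    ⟨_, rfl⟩
  have hfin : IsFiniteMeasure ρ' := by
    have h1 : Integrable (fun _ : UI => (1 : ℝ)) ρ' := by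
      rw [hρ', integrable_withDensity_iff_integrable_smul hwc.measurable]
      refine int_of_cont ?_ _
      exact hwc.smul continuous_const
    exact (integrable_const_iff.1 h1).resolve_left one_ne_zero
  have hmul : ∀ (x : ℝ), t0 < x → ∀ y : UI, w y • (y : ℝ) ^ (x - 1) =
      g t0 * (y : ℝ) ^ (x - t0) := by
    intro x hx y
    rw [NNReal.smul_def, smul_eq_mul, hw, mul_assoc]
    congr 1
    rcases y.2.1.lt_or_eq with hy | hy
    · rw [← Real.rpow_add hy]
      congr 1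
      ring
    · rw [← hy, Real.zero_rpow (by linarith : (1 - t0) ≠ 0), zero_mul,
        Real.zero_rpow (by linarith : (x - t0) ≠ 0)]
  have hint : ∀ x : ℝ, t0 < x → Integrable (fun y : UI => (y : ℝ) ^ (x - 1)) ρ' ∧
      ∫ y : UI, (y : ℝ) ^ (x - 1) ∂ρ' = g x := by
    intro x hx
    constructor
    · rw [hρ', integrable_withDensity_iff_integrable_smul hwc.measurable]
      simp only [hmul x hx]
      exact int_of_cont (continuous_const.mul (rp_cont (by linarith))) _
    · rw [hρ', integral_withDensity_eq_integral_smul hwc.measurable]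
      simp only [hmul x hx]
      rw [integral_const_mul, hR _ (by linarith)]
      rw [show t0 + (x - t0) = x by ring]
      field_simp
  have heq : ρ = ρ' := by
    refine mom_unique fun n => ?_
    rw [hρ n]
    have h1 := (hint (1 + n) (by
      have := Nat.cast_nonneg (α := ℝ) n
      linarith)).2
    rw [← h1]
    refine integral_congr_ae (Filter.Eventually.of_forall fun y => ?_)
    simp only
    rw [show (1 + (n : ℝ) - 1) = n by ring, Real.rpow_natCast]
  rw [heq]
  refine ⟨?_, hint⟩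
  rw [hρ', withDensity_apply _ (measurableSet_singleton _), lintegral_singleton]
  have h0 : w 0 = 0 := by
    have := hw 0
    rw [show (((0 : UI) : ℝ)) = 0 from rfl, Real.zero_rpow (by linarith : (1 - t0) ≠ 0),
      mul_zero] at this
    exact_mod_cast this
  rw [h0]
  simp

/-- the representation on the unit interval -/
theorem laplace (h : Os g) : ∃ ρ : ProbabilityMeasure UI, (ρ : Measure UI) {0} = 0 ∧
    ∀ x : ℝ, 0 < x → Integrable (fun y : UI => (y : ℝ) ^ (x - 1)) (ρ : Measure UI) ∧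
      ∫ y : UI, (y : ℝ) ^ (x - 1) ∂(ρ : Measure UI) = g x := by
  obtain ⟨ρ, hρ⟩ := lap0 h one_pos
  have hn : ∀ n : ℕ, ∫ y : UI, (y : ℝ) ^ n ∂(ρ : Measure UI) = g (1 + n) := by
    intro n
    have h1 := hρ n (Nat.cast_nonneg _)
    rw [h.one, div_one] at h1
    rw [← h1]
    simp only [Real.rpow_natCast]
  refine ⟨ρ, (tilt h hn (t0 := 1 / 2) (by norm_num) (by norm_num)).1, fun x hx => ?_⟩
  have hm : 0 < min (x / 2) (1 / 2) := lt_min (by linarith) (by norm_num)
  refine (tilt h hn hm ((min_le_right _ _).trans_lt (by norm_num))).2 x ?_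
  exact (min_le_left _ _).trans_lt (by linarith)

/-- **the spectral representation** -/
theorem spectral (h : Os g) : ∃ σ : Measure ℝ, IsProbabilityMeasure σ ∧ σ (Set.Iio 0) = 0 ∧
    ∀ x : ℝ, 0 < x → Integrable (fun E : ℝ => Real.exp (-(E * (x - 1)))) σ ∧
      ∫ E, Real.exp (-(E * (x - 1))) ∂σ = g x := by
  obtain ⟨ρ, h0, hρ⟩ := laplace h
  have hm : Measurable fun y : UI => -Real.log (y : ℝ) :=
    (Real.measurable_log.comp measurable_subtype_coe).neg
  refine ⟨Measure.map (fun y : UI => -Real.log (y : ℝ)) (ρ : Measure UI),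
    Measure.isProbabilityMeasure_map hm.aemeasurable, ?_, fun x hx => ?_⟩
  · rw [Measure.map_apply hm measurableSet_Iio]
    refine measure_mono_null ?_ (measure_empty)
    intro y hy
    simp only [Set.mem_preimage, Set.mem_Iio] at hy
    have := Real.log_nonpos y.2.1 y.2.2
    linarith
  · obtain ⟨h1, h2⟩ := hρ x hx
    have hae : ∀ᵐ y : UI ∂(ρ : Measure UI), Real.exp (-(-Real.log (y : ℝ) * (x - 1))) =
        (y : ℝ) ^ (x - 1) := by
      have h3 : ∀ᵐ y : UI ∂(ρ : Measure UI), y ≠ 0 := by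
        rw [ae_iff]
        simpa using h0
      filter_upwards [h3] with y hy
      have hy' : (0 : ℝ) < y := lt_of_le_of_ne y.2.1 fun h => hy (Subtype.ext h.symm)
      rw [Real.rpow_def_of_pos hy']
      congr 1
      ring
    have hme : Measurable fun E : ℝ => Real.exp (-(E * (x - 1))) := by fun_prop
    constructor
    · rw [integrable_map_measure hme.aestronglyMeasurable hm.aemeasurable]
      exact h1.congr (hae.mono fun y hy => hy.symm)
    · rw [integral_map hm.aemeasurable hme.aestronglyMeasurable, ← h2]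
      exact integral_congr_ae hae

end

end Pool.Agent.W2helper10.BN
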