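import Mathlib

/-!
# Scaling limits of concave sequences at the scale where `R ^ 2 (V(R+1) - V(R))` reaches `c`
-/

open Filter
open scoped Topology

namespace Pool.Agent.W2helper10.CS

noncomputable section

/-- a nonnegative concave sequence starting at zero -/
structure Cv (V : ℕ → ℝ) : Prop where
  zero : V 0 = 0
  nn : ∀ R, 0 ≤ V R
  conc : ∀ R, V R + V (R + 2) ≤ 2 * V (R + 1)

/-- the increment -/
def inc (V : ℕ → ℝ) (R : ℕ) : ℝ := V (R + 1) - V R

variable {V : ℕ → ℝ}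

lemma Cv.anti (h : Cv V) : Antitone (inc V) := by
  refine antitone_nat_of_succ_le fun R => ?_
  have := h.conc R
  unfold inc
  have e : R + 1 + 1 = R + 2 := rfl
  rw [e]
  linarith

/-- `V c - V b ≤ (c - b) inc b` -/
lemma Cv.up (h : Cv V) {b c : ℕ} (hbc : b ≤ c) : V c - V b ≤ (c - b) * inc V b := by
  induction c, hbc using Nat.le_induction with
  | base => simp
  | succ c hbc ih =>
    have h1 : inc V c ≤ inc V b := h.anti hbc
    have h2 : V (c + 1) = V c + inc V c := by unfold inc; ring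
    rw [h2]
    push_cast
    linarith

/-- `(b - a) inc b ≤ V b - V a` -/
lemma Cv.low (h : Cv V) {a b : ℕ} (hab : a ≤ b) : (b - a) * inc V b ≤ V b - V a := by
  induction b, hab using Nat.le_induction with
  | base => simp
  | succ b hab ih =>
    have h1 : inc V (b + 1) ≤ inc V b := h.anti (Nat.le_succ b)
    have h2 : V (b + 1) = V b + inc V b := by unfold inc; ring
    have h3 : (0 : ℝ) ≤ b - a := by
      have : (a : ℝ) ≤ b := by exact_mod_cast hab
      linarith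
    rw [h2]
    push_cast
    have h4 := mul_le_mul_of_nonneg_left h1 h3
    linarith

lemma Cv.inc_nn (h : Cv V) (R : ℕ) : 0 ≤ inc V R := by
  by_contra hc
  push Not at hc
  obtain ⟨m, hm⟩ := exists_nat_gt (V R / (-inc V R))
  have hi : 0 < -inc V R := by linarith
  rw [div_lt_iff₀ hi] at hm
  have h1 := h.up (Nat.le_add_right R m)
  have h2 := h.nn (R + m)
  push_cast at h1
  have h3 : ((R : ℝ) + m - R) * inc V R = -(m * -inc V R) := by ring
  rw [h3] at h1
  linarith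

lemma Cv.mono (h : Cv V) : Monotone V := by
  refine monotone_nat_of_le_succ fun R => ?_
  have := h.inc_nn R
  unfold inc at this
  linarith

lemma Cv.inc_le (h : Cv V) (R : ℕ) : R * inc V R ≤ V R := by
  have h1 := h.low (Nat.zero_le R)
  rw [h.zero] at h1
  push_cast at h1
  simpa using h1

/-- the slopes decrease -/
lemma Cv.slope (h : Cv V) {a b c : ℕ} (hab : a ≤ b) (hbc : b ≤ c) :
    (V c - V b) * (b - a) ≤ (V b - V a) * (c - b) := by
  have h1 := h.up hbc
  have h2 := h.low hab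
  have h3 : (0 : ℝ) ≤ b - a := by
    have : (a : ℝ) ≤ b := by exact_mod_cast hab
    linarith
  have h4 : (0 : ℝ) ≤ c - b := by
    have : (b : ℝ) ≤ c := by exact_mod_cast hbc
    linarith
  have h5 := mul_le_mul_of_nonneg_right h1 h3
  have h6 := mul_le_mul_of_nonneg_right h2 h4
  linarith

/-- `r` is the least `R ≥ 1` with `R ^ 2 (V(R+1) - V(R)) ≥ c` -/
structure Som (V : ℕ → ℝ) (c : ℝ) (r : ℕ) : Prop where
  one_le : 1 ≤ r
  ge : c ≤ (r : ℝ) ^ 2 * (V (r + 1) - V r)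
  lt : ∀ R : ℕ, 1 ≤ R → R < r → (R : ℝ) ^ 2 * (V (R + 1) - V R) < c

/-- if `R ^ 2 inc R < c` for `a ≤ R < b` then `V b - V a ≤ c (1/(a-1) - 1/(b-1))` -/
lemma coul_bd {c : ℝ} (hc : 0 ≤ c) {a b : ℕ} (ha : 2 ≤ a) (hab : a ≤ b)
    (h : ∀ R, a ≤ R → R < b → (R : ℝ) ^ 2 * (V (R + 1) - V R) < c) :
    V b - V a ≤ c * (1 / ((a : ℝ) - 1) - 1 / ((b : ℝ) - 1)) := by
  induction b, hab using Nat.le_induction with
  | base => simp
  | succ b hab ih =>
    have h1 := ih fun R hR hb => h R hR (by omega)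
    have h2 := h b hab (by omega)
    have hb2 : (2 : ℝ) ≤ b := by exact_mod_cast ha.trans hab
    have hb0 : (0 : ℝ) < b := by linarith
    have hb1 : (0 : ℝ) < (b : ℝ) - 1 := by linarith
    have h3 : V (b + 1) - V b ≤ c / (b : ℝ) ^ 2 := by
      rw [le_div_iff₀ (by positivity)]
      linarith
    have h4 : c / (b : ℝ) ^ 2 ≤ c * (1 / ((b : ℝ) - 1) - 1 / b) := by
      have e : 1 / ((b : ℝ) - 1) - 1 / b = 1 / (((b : ℝ) - 1) * b) := by
        field_simp
        ring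
      rw [e, mul_one_div]
      refine div_le_div_of_nonneg_left hc (by positivity) ?_
      nlinarith
    have h5 : ((b + 1 : ℕ) : ℝ) - 1 = b := by push_cast; ring
    rw [h5]
    have h6 : c * (1 / ((a : ℝ) - 1) - 1 / b) =
        c * (1 / ((a : ℝ) - 1) - 1 / ((b : ℝ) - 1)) + c * (1 / ((b : ℝ) - 1) - 1 / b) := by ring
    rw [h6]
    linarith

/-- the bounds at the scale `r` -/
lemma Som.inc_lt {c : ℝ} {r : ℕ} (h : Som V c r) (hv : Cv V) (hr : 2 ≤ r) :
    inc V r ≤ c / ((r : ℝ) - 1) ^ 2 := by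
  have h1 := h.lt (r - 1) (by omega) (by omega)
  have h2 : (2 : ℝ) ≤ r := by exact_mod_cast hr
  have h3 : ((r - 1 : ℕ) : ℝ) = (r : ℝ) - 1 := by
    rw [Nat.cast_sub (by omega)]; simp
  have h4 : (0 : ℝ) < (r : ℝ) - 1 := by linarith
  rw [h3] at h1
  rw [le_div_iff₀ (by positivity)]
  have h5 : inc V r ≤ inc V (r - 1) := hv.anti (Nat.sub_le _ _)
  have h6 : V (r - 1 + 1) - V (r - 1) = inc V (r - 1) := rfl
  rw [h6] at h1
  have h7 := mul_le_mul_of_nonneg_left h5 (by positivity : 0 ≤ ((r : ℝ) - 1) ^ 2)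
  linarith

lemma Som.inc_ge {c : ℝ} {r : ℕ} (h : Som V c r) : c / (r : ℝ) ^ 2 ≤ inc V r := by
  have h1 := h.ge
  have h2 : (1 : ℝ) ≤ r := by exact_mod_cast h.one_le
  rw [div_le_iff₀ (by positivity)]
  unfold inc
  linarith

/-- the potential in units of the scale `r` -/
def scl (V : ℕ → ℝ) (r : ℕ) (x : ℝ) : ℝ := r * (V ⌊x * r⌋₊ - V r)

lemma scl_one {r : ℕ} : scl V r 1 = 0 := by
  unfold scl
  simp

lemma scl_mono (h : Cv V) (r : ℕ) {x y : ℝ} (hxy : x ≤ y) :
    scl V r x ≤ scl V r y := by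
  unfold scl
  have h1 : ⌊x * r⌋₊ ≤ ⌊y * r⌋₊ := Nat.floor_mono (mul_le_mul_of_nonneg_right hxy (by positivity))
  have h2 := h.mono h1
  have h3 : (0 : ℝ) ≤ r := Nat.cast_nonneg r
  exact mul_le_mul_of_nonneg_left (by linarith) h3

/-- the increments at `a` -/
lemma Som.inc_bd {c : ℝ} (hc : 0 ≤ c) {r : ℕ} (h : Som V c r) (hv : Cv V) {m : ℝ} (hm : 0 < m)
    {a : ℕ} (ha : m ≤ (a : ℝ) - 1) (hr : m ≤ (r : ℝ) - 1) (hr2 : 2 ≤ r) :
    inc V a ≤ c / m ^ 2 := by
  rcases lt_or_ge a r with h1 | h1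
  · have ha1 : 1 ≤ a := by
      have : (1 : ℝ) < a := by linarith
      exact_mod_cast this.le
    have h2 := h.lt a ha1 h1
    have h4 : inc V a ≤ c / (a : ℝ) ^ 2 := by
      rw [le_div_iff₀ (by positivity)]
      unfold inc
      linarith
    refine h4.trans (div_le_div_of_nonneg_left hc (by positivity) ?_)
    exact pow_le_pow_left₀ hm.le (by linarith) 2
  · refine ((hv.anti h1).trans (h.inc_lt hv hr2)).trans ?_
    exact div_le_div_of_nonneg_left hc (by positivity) (pow_le_pow_left₀ hm.le hr 2)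

/-- the Lipschitz bound in the units of `r` -/
lemma Som.lip {c : ℝ} (hc : 0 ≤ c) {r : ℕ} (h : Som V c r) (hv : Cv V) {δ : ℝ} (hδ : 0 < δ)
    (hδ1 : δ ≤ 1) (hr : 4 ≤ δ * r) {x y : ℝ} (hx : δ ≤ x) (hxy : x ≤ y) :
    scl V r y - scl V r x ≤ 4 * c / δ ^ 2 * ((y - x) + 1 / r) := by
  have hr0 : (0 : ℝ) ≤ r := Nat.cast_nonneg r
  have hr4 : (4 : ℝ) ≤ r := by
    have := mul_le_mul_of_nonneg_right hδ1 hr0
    linarith
  have hx0 : 0 ≤ x * r := by
    have : 0 ≤ x := by linarith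
    positivity
  have hy0 : 0 ≤ y * r := by
    have : 0 ≤ y := by linarith
    positivity
  have ha := Nat.lt_floor_add_one (x * r)
  have hb := Nat.floor_le hy0
  have hxr : δ * r ≤ x * r := mul_le_mul_of_nonneg_right hx hr0
  have hab : ⌊x * r⌋₊ ≤ ⌊y * r⌋₊ := Nat.floor_mono (mul_le_mul_of_nonneg_right hxy hr0)
  have h1 := h.inc_bd hc hv (m := δ * r / 2) (by linarith) (a := ⌊x * r⌋₊) (by linarith)
    (by
      have : δ * r ≤ r := by
        calc δ * r ≤ 1 * r := mul_le_mul_of_nonneg_right hδ1 hr0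
          _ = r := one_mul _
      linarith) (by
      have : (2 : ℝ) ≤ r := by linarith
      exact_mod_cast this)
  have h2 := hv.up hab
  have h3 : (0 : ℝ) ≤ (⌊y * r⌋₊ : ℝ) - ⌊x * r⌋₊ := by
    have : ((⌊x * r⌋₊ : ℕ) : ℝ) ≤ ⌊y * r⌋₊ := by exact_mod_cast hab
    linarith
  have h4 := mul_le_mul_of_nonneg_left h1 h3
  have h5 : (⌊y * r⌋₊ : ℝ) - ⌊x * r⌋₊ ≤ (y - x) * r + 1 := by linarith
  have h6 : c / (δ * r / 2) ^ 2 = 4 * c / δ ^ 2 / (r : ℝ) ^ 2 := by
    field_simp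
    ring
  have h7 : 0 ≤ 4 * c / δ ^ 2 / (r : ℝ) ^ 2 := by positivity
  rw [h6] at h4
  have h8 := mul_le_mul_of_nonneg_right h5 h7
  have h9 : scl V r y - scl V r x = r * (V ⌊y * r⌋₊ - V ⌊x * r⌋₊) := by
    unfold scl
    ring
  rw [h9]
  calc (r : ℝ) * (V ⌊y * r⌋₊ - V ⌊x * r⌋₊) ≤
      r * (((y - x) * r + 1) * (4 * c / δ ^ 2 / (r : ℝ) ^ 2)) :=
        mul_le_mul_of_nonneg_left (by linarith) hr0
    _ = _ := by
        have hr1 : (r : ℝ) ≠ 0 := by linarith
        field_simp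

lemma bdd_all (f : ℕ → ℝ) (B : ℝ) (K : ℕ) (h : ∀ k, K ≤ k → |f k| ≤ B) :
    ∃ B', ∀ k, |f k| ≤ B' := by
  refine ⟨|B| + ∑ k ∈ Finset.range K, |f k|, fun k => ?_⟩
  rcases lt_or_ge k K with h1 | h1
  · have h2 := Finset.single_le_sum (f := fun k => |f k|) (fun i _ => abs_nonneg _)
      (Finset.mem_range.2 h1)
    have h3 := abs_nonneg B
    linarith
  · have h2 := h k h1
    have h3 := le_abs_self B
    have h4 : 0 ≤ ∑ k ∈ Finset.range K, |f k| := Finset.sum_nonneg fun i _ => abs_nonneg _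
    linarith

/-- monotone functions converging pointwise to a Lipschitz function -/
lemma unif {w : ℕ → ℝ → ℝ} {v : ℝ → ℝ} {a b L : ℝ} (hab : a ≤ b) (hL : 0 ≤ L)
    (hw : ∀ k x y, x ≤ y → w k x ≤ w k y)
    (hv : ∀ x y, a ≤ x → x ≤ y → y ≤ b → v y - v x ≤ L * (y - x))
    (hvm : ∀ x y, a ≤ x → x ≤ y → y ≤ b → v x ≤ v y)
    (hl : ∀ x, a ≤ x → x ≤ b → Tendsto (fun k => w k x) atTop (𝓝 (v x))) :
    TendstoUniformlyOn w v atTop (Set.Icc a b) := by
  rw [Metric.tendstoUniformlyOn_iff]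
  intro ε hε
  obtain ⟨n, hn⟩ := exists_nat_gt (L * (b - a) / (ε / 2))
  rw [div_lt_iff₀ (by linarith)] at hn
  have hLb : 0 ≤ L * (b - a) := mul_nonneg hL (by linarith)
  have hn0 : (0 : ℝ) < n := by
    by_contra hc
    push Not at hc
    have : (n : ℝ) * (ε / 2) ≤ 0 := mul_nonpos_of_nonpos_of_nonneg hc (by linarith)
    linarith
  obtain ⟨g, hg⟩ : ∃ g : ℕ → ℝ, g = fun m : ℕ => a + (b - a) * ((m : ℝ) / n) := ⟨_, rfl⟩
  have hga : ∀ m : ℕ, a ≤ g m := fun m => by
    rw [hg]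
    have : 0 ≤ (b - a) * (m / n) := mul_nonneg (by linarith) (by positivity)
    simp only
    linarith
  have hgb : ∀ m : ℕ, m ≤ n → g m ≤ b := fun m hm => by
    rw [hg]
    have h1 : (m : ℝ) / n ≤ 1 := by
      rw [div_le_one hn0]
      exact_mod_cast hm
    have := mul_le_mul_of_nonneg_left h1 (by linarith : 0 ≤ b - a)
    simp only
    linarith
  have hstep : ∀ m : ℕ, g (m + 1) - g m = (b - a) / n := fun m => by
    rw [hg]
    simp only
    push_cast
    ring
  have hev : ∀ᶠ k in atTop, ∀ m ∈ Finset.range (n + 1), |w k (g m) - v (g m)| < ε / 2 := by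
    rw [Filter.eventually_all_finset]
    intro m hm
    have hm' : m ≤ n := by rw [Finset.mem_range] at hm; omega
    have h1 := (hl (g m) (hga m) (hgb m hm'))
    rw [Metric.tendsto_atTop] at h1
    obtain ⟨K, hK⟩ := h1 (ε / 2) (by linarith)
    filter_upwards [eventually_ge_atTop K] with k hk
    have := hK k hk
    rwa [Real.dist_eq] at this
  filter_upwards [hev] with k hk x hx
  -- the cell of x
  have hcell : ∃ m : ℕ, m + 1 ≤ n ∧ g m ≤ x ∧ x ≤ g (m + 1) := by
    by_contra hc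
    push Not at hc
    have h1 : ∀ m : ℕ, m ≤ n → g m ≤ x := by
      intro m
      induction m with
      | zero =>
        intro _
        have : g 0 = a := by rw [hg]; simp
        rw [this]
        exact hx.1
      | succ m ih =>
        intro hm
        exact (hc m hm (ih (by omega))).le
    have hn1 : 1 ≤ n := by
      have : (0 : ℝ) < n := hn0
      exact_mod_cast this
    have h2 := hc (n - 1) (by omega) (h1 _ (by omega))
    have h3 : n - 1 + 1 = n := by omega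
    rw [h3] at h2
    have h4 : g n = b := by
      rw [hg]
      simp only
      rw [div_self hn0.ne']
      ring
    rw [h4] at h2
    exact absurd hx.2 (not_le.2 h2)
  obtain ⟨m, hm, hmx, hxm⟩ := hcell
  have e1 := hk m (Finset.mem_range.2 (by omega))
  have e2 := hk (m + 1) (Finset.mem_range.2 (by omega))
  rw [abs_lt] at e1 e2
  have f1 := hw k _ _ hmx
  have f2 := hw k _ _ hxm
  have f3 := hvm _ _ (hga m) hmx hx.2
  have f4 := hvm _ _ hx.1 hxm (hgb _ hm)
  have f5 := hv _ _ (hga m) (hmx.trans hxm) (hgb _ hm)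
  rw [hstep] at f5
  have f6 : L * ((b - a) / n) < ε / 2 := by
    rw [← mul_div_assoc, div_lt_iff₀ hn0]
    linarith
  rw [Real.dist_eq, abs_lt]
  constructor <;> linarith

/-- **compactness of the potentials at the scale `r`** -/
theorem compactness {c : ℝ} (hc : 0 < c) {V : ℕ → ℕ → ℝ} (hV : ∀ k, Cv (V k)) {r : ℕ → ℕ}
    (hr : Tendsto r atTop atTop) (hs : ∀ k, Som (V k) c (r k)) {σ : ℕ → ℝ}
    (hσ0 : ∀ k, 0 ≤ σ k) (hσ : ∀ k R, σ k ≤ inc (V k) R) :
    ∃ φ : ℕ → ℕ, StrictMono φ ∧ ∃ (v : ℝ → ℝ) (s : ℝ),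
      (∀ a b : ℝ, 0 < a → a ≤ b → TendstoUniformlyOn
        (fun k x => scl (V (φ k)) (r (φ k)) x) v atTop (Set.Icc a b)) ∧
      Tendsto (fun k => σ (φ k) * (r (φ k) : ℝ) ^ 2) atTop (𝓝 s) ∧ 0 ≤ s ∧ s ≤ c ∧
      ConcaveOn ℝ (Set.Ioi 0) v ∧ v 1 = 0 ∧
      (∀ x y : ℝ, 0 < x → x ≤ y → s * (y - x) ≤ v y - v x) ∧
      (∀ x y : ℝ, 0 < x → x ≤ y → y ≤ 1 → c * (y - x) ≤ v y - v x ∧
        v y - v x ≤ c * (1 / x - 1 / y)) ∧
      (∀ x y : ℝ, 1 ≤ x → x ≤ y → v y - v x ≤ c * (y - x)) := by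
  -- the real scales tend to infinity
  have hrR : Tendsto (fun k => (r k : ℝ)) atTop atTop := tendsto_natCast_atTop_atTop.comp hr
  have hev : ∀ M : ℝ, ∃ K : ℕ, ∀ k, K ≤ k → M ≤ (r k : ℝ) := fun M => by
    have := hrR.eventually_ge_atTop M
    exact eventually_atTop.1 this
  obtain ⟨L, hL⟩ : ∃ L : ℝ → ℝ, L = fun δ => 4 * c / (min δ 1) ^ 2 := ⟨_, rfl⟩
  have hLnn : ∀ δ, 0 ≤ L δ := fun δ => by rw [hL]; positivity
  have hlip : ∀ δ : ℝ, 0 < δ → ∃ K : ℕ, ∀ k, K ≤ k → ∀ x y : ℝ, δ ≤ x → x ≤ y →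
      scl (V k) (r k) y - scl (V k) (r k) x ≤ L δ * ((y - x) + 1 / r k) := by
    intro δ hδ
    have hm : 0 < min δ 1 := lt_min hδ one_pos
    obtain ⟨K, hK⟩ := hev (4 / min δ 1)
    refine ⟨K, fun k hk x y hx hxy => ?_⟩
    have h1 := hK k hk
    rw [div_le_iff₀ hm] at h1
    rw [hL]
    exact (hs k).lip hc.le (hV k) hm (min_le_right _ _) (by linarith)
      ((min_le_left _ _).trans hx) hxy
  -- boundedness
  have hbd : ∀ x : ℝ, 0 < x → ∃ B, ∀ k, |scl (V k) (r k) x| ≤ B := by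
    intro x hx
    obtain ⟨K, hK⟩ := hlip (min x 1) (lt_min hx one_pos)
    obtain ⟨K', hK'⟩ := hev 1
    refine bdd_all _ (L (min x 1) * (|x - 1| + 1)) (max K K') fun k hk => ?_
    have h0 := hK k ((le_max_left _ _).trans hk)
    have h1 := hK' k ((le_max_right _ _).trans hk)
    have h2 : 1 / (r k : ℝ) ≤ 1 := by
      rw [div_le_one (by linarith)]
      exact h1
    rcases le_total x 1 with h | h
    · have h3 := h0 x 1 (min_le_left _ _) h
      rw [scl_one] at h3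
      have h4 := scl_mono (hV k) (r k) h
      rw [scl_one] at h4
      rw [abs_of_nonpos h4, abs_of_nonpos (by linarith : x - 1 ≤ 0)]
      have h5 := mul_le_mul_of_nonneg_left (by linarith : (1 - x) + 1 / (r k : ℝ) ≤
        -(x - 1) + 1) (hLnn (min x 1))
      linarith
    · have h3 := h0 1 x (min_le_right _ _) h
      rw [scl_one] at h3
      have h4 := scl_mono (hV k) (r k) h
      rw [scl_one] at h4
      rw [abs_of_nonneg h4, abs_of_nonneg (by linarith : 0 ≤ x - 1)]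
      have h5 := mul_le_mul_of_nonneg_left (by linarith : (x - 1) + 1 / (r k : ℝ) ≤
        (x - 1) + 1) (hLnn (min x 1))
      linarith
  -- the string tension in units of the scale
  have hσr : ∃ K : ℕ, ∀ k, K ≤ k → 2 ≤ r k := by
    have := hr.eventually_ge_atTop 2
    exact eventually_atTop.1 this
  have hσc : ∀ k, 2 ≤ r k → σ k * (r k : ℝ) ^ 2 ≤ c * ((r k : ℝ) / ((r k : ℝ) - 1)) ^ 2 := by
    intro k hk
    have h1 := (hσ k (r k)).trans ((hs k).inc_lt (hV k) hk)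
    have h2 : (2 : ℝ) ≤ r k := by exact_mod_cast hk
    have h3 := mul_le_mul_of_nonneg_right h1 (by positivity : (0 : ℝ) ≤ (r k : ℝ) ^ 2)
    refine h3.trans (le_of_eq ?_)
    have : ((r k : ℝ) - 1) ≠ 0 := by linarith
    field_simp
  have hσb : ∃ B, ∀ k, |σ k * (r k : ℝ) ^ 2| ≤ B := by
    obtain ⟨K, hK⟩ := hσr
    refine bdd_all _ (4 * c) K fun k hk => ?_
    have h1 := hσc k (hK k hk)
    have h2 : (2 : ℝ) ≤ r k := by exact_mod_cast hK k hk
    rw [abs_of_nonneg (mul_nonneg (hσ0 k) (by positivity))]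
    refine h1.trans ?_
    have h3 : (r k : ℝ) / ((r k : ℝ) - 1) ≤ 2 := by
      rw [div_le_iff₀ (by linarith)]
      linarith
    have h4 : 0 ≤ (r k : ℝ) / ((r k : ℝ) - 1) := by
      have : 0 < (r k : ℝ) - 1 := by linarith
      positivity
    have h5 := pow_le_pow_left₀ h4 h3 2
    have h6 := mul_le_mul_of_nonneg_left h5 hc.le
    linarith
  -- the compactness
  have hbq : ∀ q : ℚ, ∃ B, ∀ k, |if (0 : ℝ) < q then scl (V k) (r k) q else 0| ≤ B := by
    intro q
    by_cases hq : (0 : ℝ) < q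
    · simp only [hq, if_true]
      exact hbd q hq
    · simp only [hq, if_false]
      exact ⟨0, fun k => by simp⟩
  choose B hB using hbq
  obtain ⟨B0, hB0⟩ := hσb
  have hcpt : IsCompact ((Set.pi Set.univ fun q : ℚ => Set.Icc (-B q) (B q)) ×ˢ
      (Set.Icc (-B0) B0)) :=
    (isCompact_univ_pi fun q => isCompact_Icc).prod isCompact_Icc
  obtain ⟨p, -, φ, hφ, hlim⟩ := hcpt.tendsto_subseq (x := fun k =>
    ((fun q : ℚ => if (0 : ℝ) < q then scl (V k) (r k) q else 0), σ k * (r k : ℝ) ^ 2))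
    (fun k => ⟨fun q _ => abs_le.1 (hB q k), abs_le.1 (hB0 k)⟩)
  obtain ⟨u, s⟩ := p
  rw [Prod.tendsto_iff] at hlim
  obtain ⟨hlim1, hlim2⟩ := hlim
  simp only [Function.comp_def] at hlim1 hlim2
  rw [tendsto_pi_nhds] at hlim1
  have hq : ∀ q : ℚ, (0 : ℝ) < q →
      Tendsto (fun k => scl (V (φ k)) (r (φ k)) q) atTop (𝓝 (u q)) := by
    intro q hq0
    have := hlim1 q
    simp only [hq0, if_true] at this
    exact this
  have hφt := hφ.tendsto_atTop
  have hrφ : Tendsto (fun k => (1 : ℝ) / (r (φ k) : ℝ)) atTop (𝓝 0) := by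
    simp only [one_div]
    exact tendsto_inv_atTop_zero.comp (hrR.comp hφt)
  -- convergence at all points
  have hall : ∀ x : ℝ, 0 < x → ∃ l, Tendsto (fun k => scl (V (φ k)) (r (φ k)) x) atTop (𝓝 l) := by
    intro x hx
    refine cauchySeq_tendsto_of_complete ?_
    rw [Metric.cauchySeq_iff']
    intro ε hε
    obtain ⟨η, hη⟩ : ∃ η : ℝ, η = ε / (8 * (L (x / 2) + 1)) := ⟨_, rfl⟩
    have hL0 := hLnn (x / 2)
    have hη0 : 0 < η := by rw [hη]; positivity
    obtain ⟨q, hq1, hq2⟩ := exists_rat_btwn (show max (x / 2) (x - η) < x from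
      max_lt (by linarith) (by linarith))
    obtain ⟨q', hq1', hq2'⟩ := exists_rat_btwn (show x < x + η by linarith)
    have hqx2 : x / 2 < q := (le_max_left _ _).trans_lt hq1
    have hqx3 : x - η < q := (le_max_right _ _).trans_lt hq1
    have hq0 : (0 : ℝ) < q := by linarith
    have hq0' : (0 : ℝ) < q' := by linarith
    have hqq : (q' : ℝ) - q ≤ 2 * η := by linarith
    obtain ⟨K, hK⟩ := hlip (x / 2) (by linarith)
    have hu : u q' - u q ≤ L (x / 2) * (q' - q) := by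
      have h1 := (hq q' hq0').sub (hq q hq0)
      have h2 : Tendsto (fun k => L (x / 2) * (((q' : ℝ) - q) + 1 / (r (φ k) : ℝ))) atTop
          (𝓝 (L (x / 2) * (((q' : ℝ) - q) + 0))) := (hrφ.const_add _).const_mul _
      rw [add_zero] at h2
      refine le_of_tendsto_of_tendsto h1 h2 ?_
      filter_upwards [hφt.eventually_ge_atTop K] with k hk
      exact hK _ hk _ _ hqx2.le (by linarith)
    have hu2 : u q' - u q ≤ ε / 4 := by
      have h1 := mul_le_mul_of_nonneg_left hqq hL0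
      have h2 : L (x / 2) * (2 * η) ≤ ε / 4 := by
        rw [hη]
        have : L (x / 2) * (2 * (ε / (8 * (L (x / 2) + 1)))) =
            ε / 4 * (L (x / 2) / (L (x / 2) + 1)) := by
          field_simp
          ring
        rw [this]
        have h3 : L (x / 2) / (L (x / 2) + 1) ≤ 1 := by
          rw [div_le_one (by linarith)]
          linarith
        have := mul_le_mul_of_nonneg_left h3 (by linarith : 0 ≤ ε / 4)
        linarith
      linarith
    obtain ⟨K1, hK1⟩ := Metric.tendsto_atTop.1 (hq q' hq0') (ε / 8) (by linarith)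
    obtain ⟨K2, hK2⟩ := Metric.tendsto_atTop.1 (hq q hq0) (ε / 8) (by linarith)
    refine ⟨max K1 K2, fun k hk => ?_⟩
    have a1 := hK1 k ((le_max_left _ _).trans hk)
    have a2 := hK2 k ((le_max_right _ _).trans hk)
    have b1 := hK1 (max K1 K2) (le_max_left _ _)
    have b2 := hK2 (max K1 K2) (le_max_right _ _)
    rw [Real.dist_eq, abs_lt] at a1 a2 b1 b2
    have m1 := scl_mono (hV (φ k)) (r (φ k)) hq2.le
    have m2 := scl_mono (hV (φ k)) (r (φ k)) hq1'.le
    have m3 := scl_mono (hV (φ (max K1 K2))) (r (φ (max K1 K2))) hq2.le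
    have m4 := scl_mono (hV (φ (max K1 K2))) (r (φ (max K1 K2))) hq1'.le
    rw [Real.dist_eq, abs_lt]
    constructor <;> linarith
  choose! v hv using hall
  -- properties of the limit
  have hvm : ∀ x y : ℝ, 0 < x → x ≤ y → v x ≤ v y := fun x y hx hxy =>
    le_of_tendsto_of_tendsto' (hv x hx) (hv y (hx.trans_le hxy)) fun k =>
      scl_mono (hV (φ k)) (r (φ k)) hxy
  have hvl : ∀ δ : ℝ, 0 < δ → ∀ x y : ℝ, δ ≤ x → x ≤ y → v y - v x ≤ L δ * (y - x) := by
    intro δ hδ x y hx hxy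
    obtain ⟨K, hK⟩ := hlip δ hδ
    have h1 := (hv y (by linarith)).sub (hv x (by linarith))
    have h2 : Tendsto (fun k => L δ * ((y - x) + 1 / (r (φ k) : ℝ))) atTop
        (𝓝 (L δ * ((y - x) + 0))) := (hrφ.const_add _).const_mul _
    rw [add_zero] at h2
    refine le_of_tendsto_of_tendsto h1 h2 ?_
    filter_upwards [hφt.eventually_ge_atTop K] with k hk
    exact hK _ hk _ _ hx hxy
  -- the scaled integer parts
  have hfl : ∀ x : ℝ, 0 ≤ x → Tendsto (fun k => (⌊x * (r (φ k) : ℝ)⌋₊ : ℝ) / (r (φ k) : ℝ)) atTop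
      (𝓝 x) := fun x hx => (tendsto_nat_floor_mul_div_atTop hx).comp (hrR.comp hφt)
  have hrpos : ∀ k, (0 : ℝ) < r (φ k) := fun k => by
    have := (hs (φ k)).one_le
    exact_mod_cast this
  have hsub : ∀ (k : ℕ) (x y : ℝ), scl (V (φ k)) (r (φ k)) y - scl (V (φ k)) (r (φ k)) x =
      (r (φ k) : ℝ) * (V (φ k) ⌊y * (r (φ k) : ℝ)⌋₊ - V (φ k) ⌊x * (r (φ k) : ℝ)⌋₊) :=
    fun k x y => by unfold scl; ring
  have hflm : ∀ (k : ℕ) {x y : ℝ}, x ≤ y →
      ⌊x * (r (φ k) : ℝ)⌋₊ ≤ ⌊y * (r (φ k) : ℝ)⌋₊ := fun k x y hxy =>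
    Nat.floor_mono (mul_le_mul_of_nonneg_right hxy (hrpos k).le)
  have hrat : Tendsto (fun k => ((r (φ k) : ℝ) / ((r (φ k) : ℝ) - 1)) ^ 2) atTop
      (𝓝 (1 ^ 2)) := by
    refine Tendsto.pow ?_ 2
    have h2 : Tendsto (fun k => 1 / (1 - 1 / (r (φ k) : ℝ))) atTop (𝓝 (1 / (1 - 0))) :=
      (tendsto_const_nhds).div (hrφ.const_sub 1) (by norm_num)
    rw [sub_zero, div_one] at h2
    refine h2.congr fun k => ?_
    have := (hrpos k).ne'
    rw [one_sub_div this, one_div_div]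
  refine ⟨φ, hφ, v, s, ?_, hlim2, ?_, ?_, ?_, ?_, ?_, ?_, ?_⟩
  · intro a b ha hab
    refine unif hab (hLnn a) (fun k x y hxy => scl_mono (hV (φ k)) (r (φ k)) hxy)
      (fun x y hx hxy hy => hvl a ha x y hx hxy)
      (fun x y hx hxy hy => hvm x y (by linarith) hxy) (fun x hx _ => hv x (by linarith))
  · exact ge_of_tendsto' hlim2 fun k => mul_nonneg (hσ0 _) (by positivity)
  · have h1 := hrat.const_mul c
    rw [one_pow, mul_one] at h1
    refine le_of_tendsto_of_tendsto hlim2 h1 ?_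
    obtain ⟨K, hK⟩ := hσr
    filter_upwards [hφt.eventually_ge_atTop K] with k hk
    exact hσc _ (hK _ hk)
  · -- concavity
    refine concaveOn_of_slope_anti_adjacent (convex_Ioi 0) ?_
    intro x y z hx hz hxy hyz
    rw [Set.mem_Ioi] at hx hz
    rw [div_le_div_iff₀ (by linarith) (by linarith)]
    have t1 := ((hv z hz).sub (hv y (by linarith))).mul ((hfl y (by linarith)).sub (hfl x hx.le))
    have t2 := ((hv y (by linarith)).sub (hv x hx)).mul ((hfl z hz.le).sub (hfl y (by linarith)))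
    refine le_of_tendsto_of_tendsto' t1 t2 fun k => ?_
    rw [hsub, hsub]
    have h1 := (hV (φ k)).slope (hflm k hxy.le) (hflm k hyz.le)
    have e1 : ∀ A a b : ℝ, (r (φ k) : ℝ) * A * (a / (r (φ k) : ℝ) - b / (r (φ k) : ℝ)) =
        A * (a - b) := fun A a b => by
      have := (hrpos k).ne'
      field_simp
    rw [e1, e1]
    exact h1
  · refine tendsto_nhds_unique (hv 1 one_pos) ?_
    simp only [scl_one]
    exact tendsto_const_nhds
  · -- the string tension
    intro x y hx hxy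
    have t1 := ((hfl y (by linarith)).sub (hfl x hx.le)).const_mul s
    have t2 := (hv y (by linarith)).sub (hv x hx)
    have t3 := hlim2.mul ((hfl y (by linarith)).sub (hfl x hx.le))
    refine le_of_tendsto_of_tendsto' t3 t2 fun k => ?_
    rw [hsub]
    have h1 := (hV (φ k)).low (hflm k hxy)
    have h2 := hσ (φ k) ⌊y * (r (φ k) : ℝ)⌋₊
    have h3 : (0 : ℝ) ≤ (⌊y * (r (φ k) : ℝ)⌋₊ : ℝ) - ⌊x * (r (φ k) : ℝ)⌋₊ := by
      have : ((⌊x * (r (φ k) : ℝ)⌋₊ : ℕ) : ℝ) ≤ ⌊y * (r (φ k) : ℝ)⌋₊ := by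
        exact_mod_cast hflm k hxy
      linarith
    have h4 := (mul_le_mul_of_nonneg_left h2 h3).trans h1
    have h5 := mul_le_mul_of_nonneg_left h4 (hrpos k).le
    refine le_trans (le_of_eq ?_) h5
    have := (hrpos k).ne'
    field_simp
  · intro x y hx hxy hy1
    have hy : 0 < y := by linarith
    constructor
    · have t1 := ((hfl y hy.le).sub (hfl x hx.le)).const_mul c
      have t2 := (hv y hy).sub (hv x hx)
      refine le_of_tendsto_of_tendsto' t1 t2 fun k => ?_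
      rw [hsub]
      have h1 := (hV (φ k)).low (hflm k hxy)
      have h0 : ⌊y * (r (φ k) : ℝ)⌋₊ ≤ r (φ k) := by
        have := hflm k hy1
        rwa [one_mul, Nat.floor_natCast] at this
      have h2 := ((hs (φ k)).inc_ge).trans ((hV (φ k)).anti h0)
      have h3 : (0 : ℝ) ≤ (⌊y * (r (φ k) : ℝ)⌋₊ : ℝ) - ⌊x * (r (φ k) : ℝ)⌋₊ := by
        have : ((⌊x * (r (φ k) : ℝ)⌋₊ : ℕ) : ℝ) ≤ ⌊y * (r (φ k) : ℝ)⌋₊ := by
          exact_mod_cast hflm k hxy
        linarith
      have h4 := (mul_le_mul_of_nonneg_left h2 h3).trans h1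
      have h5 := mul_le_mul_of_nonneg_left h4 (hrpos k).le
      refine le_trans (le_of_eq ?_) h5
      have := (hrpos k).ne'
      field_simp
    · have t2 := (hv y hy).sub (hv x hx)
      have hshift : ∀ z : ℝ, 0 < z → Tendsto (fun k => (1 : ℝ) /
          ((⌊z * (r (φ k) : ℝ)⌋₊ : ℝ) / (r (φ k) : ℝ) - 1 / (r (φ k) : ℝ))) atTop
          (𝓝 (1 / z)) := by
        intro z hz
        have h1 := (hfl z hz.le).sub hrφ
        rw [sub_zero] at h1
        exact tendsto_const_nhds.div h1 hz.ne'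
      have t1 := ((hshift x hx).sub (hshift y hy)).const_mul c
      refine le_of_tendsto_of_tendsto t2 t1 ?_
      have hbig : ∀ᶠ k in atTop, 2 ≤ ⌊x * (r (φ k) : ℝ)⌋₊ := by
        have h1 := (tendsto_nat_floor_atTop (α := ℝ)).comp
          ((hrR.comp hφt).const_mul_atTop hx)
        exact h1.eventually_ge_atTop 2
      filter_upwards [hbig] with k hk
      rw [hsub]
      have h0 : ⌊y * (r (φ k) : ℝ)⌋₊ ≤ r (φ k) := by
        have := hflm k hy1
        rwa [one_mul, Nat.floor_natCast] at this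
      have h1 := coul_bd hc.le hk (hflm k hxy) fun R hR hR' =>
        (hs (φ k)).lt R (by omega) (by omega)
      have h2 := mul_le_mul_of_nonneg_left h1 (hrpos k).le
      refine h2.trans (le_of_eq ?_)
      have hr0 := (hrpos k).ne'
      have e : ∀ a : ℝ, (r (φ k) : ℝ) * (1 / (a - 1)) =
          1 / (a / (r (φ k) : ℝ) - 1 / (r (φ k) : ℝ)) := fun a => by
        rw [← sub_div, one_div_div, mul_one_div]
      rw [← e, ← e]
      ring
  · intro x y hx hxy
    have hx0 : 0 < x := by linarith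
    have hy0 : 0 < y := by linarith
    have t2 := (hv y hy0).sub (hv x hx0)
    have t1 := (hrat.const_mul c).mul ((hfl y hy0.le).sub (hfl x hx0.le))
    rw [one_pow, mul_one] at t1
    refine le_of_tendsto_of_tendsto t2 t1 ?_
    obtain ⟨K, hK⟩ := hσr
    filter_upwards [hφt.eventually_ge_atTop K] with k hk
    have hk2 := hK _ hk
    rw [hsub]
    have h1 := (hV (φ k)).up (hflm k hxy)
    have h0 : r (φ k) ≤ ⌊x * (r (φ k) : ℝ)⌋₊ := by
      have := hflm k hx
      rwa [one_mul, Nat.floor_natCast] at this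
    have h2 := ((hV (φ k)).anti h0).trans ((hs (φ k)).inc_lt (hV (φ k)) hk2)
    have h3 : (0 : ℝ) ≤ (⌊y * (r (φ k) : ℝ)⌋₊ : ℝ) - ⌊x * (r (φ k) : ℝ)⌋₊ := by
      have : ((⌊x * (r (φ k) : ℝ)⌋₊ : ℕ) : ℝ) ≤ ⌊y * (r (φ k) : ℝ)⌋₊ := by
        exact_mod_cast hflm k hxy
      linarith
    have h4 := h1.trans (mul_le_mul_of_nonneg_left h2 h3)
    have h5 := mul_le_mul_of_nonneg_left h4 (hrpos k).le
    refine h5.trans (le_of_eq ?_)
    have hr0 := (hrpos k).ne'
    have hr1 : (r (φ k) : ℝ) - 1 ≠ 0 := by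
      have : (2 : ℝ) ≤ r (φ k) := by exact_mod_cast hk2
      linarith
    field_simp

end

end Pool.Agent.W2helper10.CS
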