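import Mathlib
import Pool.Agent.W2helper10.ConcaveScale
import Pool.Agent.W2helper10.Bern

/-!
# Scaling limits of reflection positive correlations at the scale set by the effective mass
-/

open Filter MeasureTheory
open scoped Topology

namespace Pool.Agent.W2helper10.GS

open Pool.Agent.W2helper10.CS Pool.Agent.W2helper10.HS Pool.Agent.W2helper10.BN

noncomputable section

/-! ### the mean and the support of the spectral measure -/

lemma mean_eq {g : ℝ → ℝ} {σ : Measure ℝ} [IsProbabilityMeasure σ]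
    (hσ : ∀ x : ℝ, 0 < x → Integrable (fun E : ℝ => Real.exp (-(E * (x - 1)))) σ ∧
      ∫ E, Real.exp (-(E * (x - 1))) ∂σ = g x) {c : ℝ}
    (hg : ∀ x : ℝ, 0 < x → Real.exp (-(c * (x - 1))) ≤ g x) :
    Integrable (fun E : ℝ => E) σ ∧ ∫ E, E ∂σ = c := by
  have hset : Set.Iio (1 : ℝ) ⊆ ProbabilityTheory.integrableExpSet id σ := by
    intro t ht
    rw [Set.mem_Iio] at ht
    have := (hσ (1 - t) (by linarith)).1
    refine this.congr (Filter.Eventually.of_forall fun E => ?_)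
    simp only [id]
    congr 1
    ring
  have h0 : (0 : ℝ) ∈ interior (ProbabilityTheory.integrableExpSet id σ) := by
    rw [mem_interior]
    exact ⟨Set.Iio 1, hset, isOpen_Iio, by simp⟩
  have hmgf : ∀ t : ℝ, t < 1 → ProbabilityTheory.mgf id σ t = g (1 - t) := by
    intro t ht
    rw [← (hσ (1 - t) (by linarith)).2]
    unfold ProbabilityTheory.mgf
    refine integral_congr_ae (Filter.Eventually.of_forall fun E => ?_)
    simp only [id]
    congr 1
    ring
  have hd := ProbabilityTheory.hasDerivAt_mgf h0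
  simp only [id, zero_mul, Real.exp_zero, mul_one] at hd
  have hde : HasDerivAt (fun t : ℝ => Real.exp (c * t)) c 0 := by
    have h1 : HasDerivAt (fun t : ℝ => c * t) c 0 := by
      simpa using (hasDerivAt_id (0 : ℝ)).const_mul c
    have h2 := h1.exp
    simpa using h2
  have hsub : HasDerivAt (fun t : ℝ => ProbabilityTheory.mgf id σ t - Real.exp (c * t))
      (∫ E, E ∂σ - c) 0 := hd.sub hde
  have hmin : IsLocalMin (fun t : ℝ => ProbabilityTheory.mgf id σ t - Real.exp (c * t)) 0 := by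
    filter_upwards [Iio_mem_nhds (show (0 : ℝ) < 1 by norm_num)] with t ht
    rw [Set.mem_Iio] at ht
    have h1 := hg (1 - t) (by linarith)
    rw [← hmgf t ht] at h1
    have e : -(c * (1 - t - 1)) = c * t := by ring
    rw [e] at h1
    simp only [mul_zero, Real.exp_zero, ProbabilityTheory.mgf_zero', probReal_univ]
    linarith
  have hz := hmin.hasDerivAt_eq_zero hsub
  refine ⟨?_, by linarith⟩
  have := ProbabilityTheory.integrable_pow_of_mem_interior_integrableExpSet h0 1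
  simpa using this

lemma supp {g : ℝ → ℝ} {σ : Measure ℝ} [IsProbabilityMeasure σ]
    (hσ : ∀ x : ℝ, 0 < x → Integrable (fun E : ℝ => Real.exp (-(E * (x - 1)))) σ ∧
      ∫ E, Real.exp (-(E * (x - 1))) ∂σ = g x) {s : ℝ}
    (hg : ∀ x : ℝ, 1 ≤ x → g x ≤ Real.exp (-(s * (x - 1)))) : σ (Set.Iio s) = 0 := by
  have key : ∀ s' : ℝ, s' < s → σ (Set.Iic s') = 0 := by
    intro s' hs'
    have h1 : ∀ x : ℝ, 1 ≤ x → σ.real (Set.Iic s') ≤ Real.exp (-((s - s') * (x - 1))) := by
      intro x hx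
      obtain ⟨i1, i2⟩ := hσ x (by linarith)
      have h2 : ∫ E in Set.Iic s', Real.exp (-(s' * (x - 1))) ∂σ ≤
          ∫ E in Set.Iic s', Real.exp (-(E * (x - 1))) ∂σ := by
        refine setIntegral_mono_on (integrable_const _) i1.integrableOn measurableSet_Iic ?_
        intro E hE
        rw [Set.mem_Iic] at hE
        refine Real.exp_le_exp.2 ?_
        have := mul_le_mul_of_nonneg_right hE (by linarith : 0 ≤ x - 1)
        linarith
      have h3 : ∫ E in Set.Iic s', Real.exp (-(E * (x - 1))) ∂σ ≤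
          ∫ E, Real.exp (-(E * (x - 1))) ∂σ :=
        setIntegral_le_integral i1 (Filter.Eventually.of_forall fun E => (Real.exp_pos _).le)
      rw [setIntegral_const, smul_eq_mul] at h2
      rw [i2] at h3
      have h4 := (h2.trans h3).trans (hg x hx)
      rw [← le_div_iff₀ (Real.exp_pos _), ← Real.exp_sub] at h4
      refine h4.trans (le_of_eq ?_)
      congr 1
      ring
    have h2 : Tendsto (fun x : ℝ => Real.exp (-((s - s') * (x - 1)))) atTop (𝓝 0) := by
      refine Real.tendsto_exp_neg_atTop_nhds_zero.comp ?_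
      refine Tendsto.const_mul_atTop (by linarith) ?_
      exact tendsto_atTop_add_const_right _ _ tendsto_id
    have h3 : σ.real (Set.Iic s') ≤ 0 := by
      refine ge_of_tendsto h2 ?_
      filter_upwards [eventually_ge_atTop 1] with x hx using h1 x hx
    have h4 : σ.real (Set.Iic s') = 0 := le_antisymm h3 measureReal_nonneg
    exact (measureReal_eq_zero_iff).1 h4
  have hsub : Set.Iio s ⊆ ⋃ n : ℕ, Set.Iic (s - 1 / ((n : ℝ) + 1)) := by
    intro E hE
    rw [Set.mem_Iio] at hE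
    obtain ⟨n, hn⟩ := exists_nat_one_div_lt (show 0 < s - E by linarith)
    rw [Set.mem_iUnion]
    exact ⟨n, by rw [Set.mem_Iic]; linarith⟩
  refine measure_mono_null hsub (measure_iUnion_null fun n => key _ ?_)
  have : 0 < 1 / ((n : ℝ) + 1) := by positivity
  linarith

/-! ### sequences -/

/-- the logarithm of the correlation -/
def Vc (C : ℕ → ℝ) (n : ℕ) : ℝ := Real.log (C 0) - Real.log (C n)

/-- the effective mass -/
def eff (C : ℕ → ℝ) (n : ℕ) : ℝ := Real.log (C n / C (n + 1))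

variable {C : ℕ → ℝ}

lemma eff_eq (hp : ∀ n, 0 < C n) (n : ℕ) : eff C n = inc (Vc C) n := by
  unfold eff inc Vc
  rw [Real.log_div (hp n).ne' (hp (n + 1)).ne']
  ring

lemma anti_C (h : Hk C) : Antitone C := antitone_nat_of_succ_le h.le

lemma cv_C (h : Hk C) (hp : ∀ n, 0 < C n) : Cv (Vc C) := by
  refine ⟨by unfold Vc; ring, fun n => ?_, fun n => ?_⟩
  · unfold Vc
    have := Real.log_le_log (hp n) (anti_C h (Nat.zero_le n))
    linarith
  · have h1 := h.logc n
    have h2 := Real.log_le_log (pow_pos (hp (n + 1)) 2) h1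
    rw [Real.log_pow, Real.log_mul (hp n).ne' (hp (n + 2)).ne'] at h2
    unfold Vc
    push_cast at h2
    linarith

lemma exp_V (hp : ∀ n, 0 < C n) (a b : ℕ) : C b / C a = Real.exp (-(Vc C b - Vc C a)) := by
  unfold Vc
  have e : -(Real.log (C 0) - Real.log (C b) - (Real.log (C 0) - Real.log (C a))) =
      Real.log (C b) - Real.log (C a) := by ring
  rw [e, Real.exp_sub, Real.exp_log (hp b), Real.exp_log (hp a)]

/-- existence of the mass -/
lemma mass_ex {V : ℕ → ℝ} (hv : Cv V) : ∃ m : ℝ, 0 ≤ m ∧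
    Tendsto (fun n : ℕ => V n / n) atTop (𝓝 m) ∧ ∀ n, m ≤ inc V n := by
  have hb : BddBelow (Set.range (inc V)) := ⟨0, by rintro _ ⟨n, rfl⟩; exact hv.inc_nn n⟩
  have h1 := tendsto_atTop_ciInf hv.anti hb
  refine ⟨_, ge_of_tendsto' h1 hv.inc_nn, ?_, fun n => ciInf_le hb n⟩
  refine h1.cesaro.congr fun n => ?_
  have h2 : ∑ i ∈ Finset.range n, inc V i = V n := by
    have := Finset.sum_range_sub V n
    rw [hv.zero, sub_zero] at this
    exact this
  rw [h2]
  ring

/-- power law bound -/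
lemma pow_low {V : ℕ → ℝ} {c : ℝ} (hc : 0 ≤ c) {a b : ℕ} (ha : 2 ≤ a) (hab : a ≤ b)
    (h : ∀ R, a ≤ R → R < b → (R : ℝ) * inc V R < c) :
    V b - V a ≤ c * (Real.log ((b : ℝ) - 1) - Real.log ((a : ℝ) - 1)) := by
  induction b, hab using Nat.le_induction with
  | base => simp
  | succ b hab ih =>
    have h1 := ih fun R hR hb => h R hR (by omega)
    have h2 := h b hab (by omega)
    have hb2 : (2 : ℝ) ≤ b := by exact_mod_cast ha.trans hab
    have hb0 : (0 : ℝ) < b := by linarith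
    have hb1 : (0 : ℝ) < (b : ℝ) - 1 := by linarith
    have h3 : V (b + 1) - V b ≤ c * (1 / b) := by
      rw [mul_one_div, le_div_iff₀ hb0]
      unfold inc at h2
      linarith
    have h4 : 1 / (b : ℝ) ≤ Real.log b - Real.log ((b : ℝ) - 1) := by
      rw [← Real.log_div hb0.ne' hb1.ne']
      have := Real.one_sub_inv_le_log_of_pos (div_pos hb0 hb1)
      have e : 1 - ((b : ℝ) / ((b : ℝ) - 1))⁻¹ = 1 / b := by
        field_simp
        ring
      rwa [e] at this
    have h5 : ((b + 1 : ℕ) : ℝ) - 1 = b := by push_cast; ring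
    rw [h5]
    have h6 := mul_le_mul_of_nonneg_left h4 hc
    have e : c * (Real.log b - Real.log ((a : ℝ) - 1)) =
        c * (Real.log b - Real.log ((b : ℝ) - 1)) +
          c * (Real.log ((b : ℝ) - 1) - Real.log ((a : ℝ) - 1)) := by ring
    rw [e]
    linarith

/-- the scale: the least `n ≥ 1` with `n M(n) ≥ c` -/
structure Sc (C : ℕ → ℝ) (c : ℝ) (r : ℕ) : Prop where
  one_le : 1 ≤ r
  ge : c ≤ r * eff C r
  lt : ∀ R : ℕ, 1 ≤ R → R < r → (R : ℝ) * eff C R < c

lemma Sc.som (hp : ∀ n, 0 < C n) {c : ℝ} (hc : 0 < c) {r : ℕ} (h : Sc C c r) :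
    Som (fun n => Vc C n / r) c r := by
  have hr0 : (0 : ℝ) < r := by
    have := h.one_le
    exact_mod_cast this
  refine ⟨h.one_le, ?_, fun R hR hRr => ?_⟩
  · have h1 := h.ge
    rw [eff_eq hp] at h1
    refine h1.trans (le_of_eq ?_)
    unfold inc
    field_simp
  · have h1 := h.lt R hR hRr
    rw [eff_eq hp] at h1
    have hR0 : (0 : ℝ) ≤ R := Nat.cast_nonneg R
    have hRr' : (R : ℝ) / r ≤ 1 := by
      rw [div_le_one hr0]
      exact_mod_cast hRr.le
    have e : (R : ℝ) ^ 2 * (Vc C (R + 1) / r - Vc C R / r) = (R / r) * (R * inc (Vc C) R) := by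
      unfold inc
      field_simp
    rw [e]
    rcases le_or_gt (R * inc (Vc C) R) 0 with h2 | h2
    · have : (R : ℝ) / r * (R * inc (Vc C) R) ≤ 0 :=
        mul_nonpos_of_nonneg_of_nonpos (by positivity) h2
      linarith
    · have : (R : ℝ) / r * (R * inc (Vc C) R) ≤ 1 * (R * inc (Vc C) R) :=
        mul_le_mul_of_nonneg_right hRr' h2.le
      linarith

/-- a sequence divided by a constant -/
lemma cv_div {V : ℕ → ℝ} (hv : Cv V) {r : ℝ} (hr : 0 < r) : Cv fun n => V n / r := by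
  refine ⟨by simp only [hv.zero, zero_div], fun n => div_nonneg (hv.nn n) hr.le, fun n => ?_⟩
  have := hv.conc n
  rw [← add_div, ← mul_div_assoc]
  exact div_le_div_of_nonneg_right this hr.le

/-- the rescaled correlation -/
def wk (C : ℕ → ℝ) (r : ℕ) (x : ℝ) : ℝ := C ⌊x * r⌋₊ / C r

lemma wk_eq (hp : ∀ n, 0 < C n) {r : ℕ} (hr : 0 < r) (x : ℝ) :
    wk C r x = Real.exp (-scl (fun n => Vc C n / r) r x) := by
  have hr0 : (0 : ℝ) < r := by exact_mod_cast hr
  unfold wk scl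
  rw [exp_V hp]
  congr 2
  field_simp

lemma wk_anti (h : Hk C) (hp : ∀ n, 0 < C n) (r : ℕ) {x y : ℝ} (hxy : x ≤ y) :
    wk C r y ≤ wk C r x := by
  unfold wk
  refine div_le_div_of_nonneg_right (anti_C h ?_) (hp r).le
  exact Nat.floor_mono (mul_le_mul_of_nonneg_right hxy (Nat.cast_nonneg r))

/-- the limit along sequences of integers -/
lemma lim_gen {C : ℕ → ℕ → ℝ} (hC : ∀ k, Hk (C k)) (hp : ∀ k n, 0 < C k n) {r : ℕ → ℕ}
    (hr : ∀ k, 0 < r k) {g : ℝ → ℝ} (hg : ContinuousOn g (Set.Ioi 0))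
    (hw : ∀ x : ℝ, 0 < x → Tendsto (fun k => wk (C k) (r k) x) atTop (𝓝 (g x))) {x : ℝ}
    (hx : 0 < x) {n : ℕ → ℕ} (hn : Tendsto (fun k => (n k : ℝ) / r k) atTop (𝓝 x)) :
    Tendsto (fun k => C k (n k) / C k (r k)) atTop (𝓝 (g x)) := by
  have hcx : ContinuousAt g x := hg.continuousAt (Ioi_mem_nhds hx)
  rw [Metric.tendsto_atTop]
  intro ε hε
  obtain ⟨δ, hδ, hδg⟩ := Metric.continuousAt_iff.1 hcx (ε / 2) (by linarith)
  obtain ⟨η, hη⟩ : ∃ η : ℝ, η = min (δ / 2) (x / 2) := ⟨_, rfl⟩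
  have hη0 : 0 < η := by rw [hη]; exact lt_min (by linarith) (by linarith)
  have hηδ : η < δ := by rw [hη]; exact (min_le_left _ _).trans_lt (by linarith)
  have hηx : η < x := by rw [hη]; exact (min_le_right _ _).trans_lt (by linarith)
  have g1 := hδg (x := x + η) (by rw [Real.dist_eq, add_sub_cancel_left, abs_of_pos hη0]; exact hηδ)
  have g2 := hδg (x := x - η) (by
    rw [Real.dist_eq, sub_sub_cancel_left, abs_neg, abs_of_pos hη0]; exact hηδ)
  obtain ⟨K1, hK1⟩ := Metric.tendsto_atTop.1 (hw (x + η) (by linarith)) (ε / 2) (by linarith)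
  obtain ⟨K2, hK2⟩ := Metric.tendsto_atTop.1 (hw (x - η) (by linarith)) (ε / 2) (by linarith)
  obtain ⟨K3, hK3⟩ := Metric.tendsto_atTop.1 hn η hη0
  refine ⟨max K1 (max K2 K3), fun k hk => ?_⟩
  have a1 := hK1 k ((le_max_left _ _).trans hk)
  have a2 := hK2 k ((le_max_left _ _).trans ((le_max_right _ _).trans hk))
  have a3 := hK3 k ((le_max_right _ _).trans ((le_max_right _ _).trans hk))
  have hr0 : (0 : ℝ) < r k := by exact_mod_cast hr k
  rw [Real.dist_eq, abs_lt] at a1 a2 a3 g1 g2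
  have b1 : n k ≤ ⌊(x + η) * r k⌋₊ := by
    refine Nat.le_floor ?_
    have : (n k : ℝ) / r k < x + η := by linarith [a3.2]
    rw [div_lt_iff₀ hr0] at this
    exact this.le
  have b2 : ⌊(x - η) * r k⌋₊ ≤ n k := by
    have h1 : x - η < (n k : ℝ) / r k := by linarith [a3.1]
    rw [lt_div_iff₀ hr0] at h1
    have h2 := Nat.floor_mono h1.le
    rwa [Nat.floor_natCast] at h2
  have c1 : wk (C k) (r k) (x + η) ≤ C k (n k) / C k (r k) :=
    div_le_div_of_nonneg_right (anti_C (hC k) b1) (hp k _).le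
  have c2 : C k (n k) / C k (r k) ≤ wk (C k) (r k) (x - η) :=
    div_le_div_of_nonneg_right (anti_C (hC k) b2) (hp k _).le
  rw [Real.dist_eq, abs_lt]
  constructor <;> linarith [a1.1, a1.2, a2.1, a2.2, g1.1, g1.2, g2.1, g2.2]

/-- **the scaling limit** -/
theorem limit {c : ℝ} (hc : 0 < c) {C : ℕ → ℕ → ℝ} (hC : ∀ k, Hk (C k)) (hp : ∀ k n, 0 < C k n)
    {r : ℕ → ℕ} (hr : Tendsto r atTop atTop) (hs : ∀ k, Sc (C k) c (r k)) {m : ℕ → ℝ}
    (hm0 : ∀ k, 0 ≤ m k) (hm : ∀ k n, m k ≤ inc (Vc (C k)) n) :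
    ∃ φ : ℕ → ℕ, StrictMono φ ∧ ∃ (s : ℝ) (σ : Measure ℝ), IsProbabilityMeasure σ ∧
      0 ≤ s ∧ s ≤ c ∧ Tendsto (fun k => m (φ k) * r (φ k)) atTop (𝓝 s) ∧
      σ (Set.Iio s) = 0 ∧ Integrable (fun E : ℝ => E) σ ∧ ∫ E, E ∂σ = c ∧
      (∀ x : ℝ, 0 < x → Integrable (fun E : ℝ => Real.exp (-(E * (x - 1)))) σ) ∧
      (∀ x y : ℝ, 0 < x → x ≤ y → y ≤ 1 → ∫ E, Real.exp (-(E * (x - 1))) ∂σ ≤
        (y / x) ^ c * ∫ E, Real.exp (-(E * (y - 1))) ∂σ) ∧
      ∀ a b : ℝ, 0 < a → a ≤ b → TendstoUniformlyOn (fun k x => wk (C (φ k)) (r (φ k)) x)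
        (fun x => ∫ E, Real.exp (-(E * (x - 1))) ∂σ) atTop (Set.Icc a b) := by
  have hr0 : ∀ k, 0 < r k := fun k => (hs k).one_le
  have hrR : ∀ k, (0 : ℝ) < r k := fun k => by exact_mod_cast hr0 k
  obtain ⟨φ, hφ, v, s, h1, h2, h3, h4, h5, h6, h7, h8, h9⟩ := compactness hc
    (V := fun k n => Vc (C k) n / r k) (fun k => cv_div (cv_C (hC k) (hp k)) (hrR k)) hr
    (fun k => (hs k).som (hp k) hc) (σ := fun k => m k / r k)
    (fun k => div_nonneg (hm0 k) (hrR k).le) (fun k n => by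
      have := hm k n
      unfold inc at this ⊢
      rw [← sub_div]
      exact div_le_div_of_nonneg_right this (hrR k).le)
  -- the limit function
  obtain ⟨g, hg⟩ : ∃ g : ℝ → ℝ, g = fun x => Real.exp (-v x) := ⟨_, rfl⟩
  have hgx : ∀ x, g x = Real.exp (-v x) := fun x => by rw [hg]
  have hunif : ∀ a b : ℝ, 0 < a → a ≤ b →
      TendstoUniformlyOn (fun k x => wk (C (φ k)) (r (φ k)) x) g atTop (Set.Icc a b) := by
    intro a b ha hab
    have h10 := h1 a b ha hab
    rw [Metric.tendstoUniformlyOn_iff] at h10 ⊢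
    intro ε hε
    obtain ⟨δ, hδ⟩ : ∃ δ : ℝ, δ = min 1 (ε / (4 * Real.exp (-v a))) := ⟨_, rfl⟩
    have hea := Real.exp_pos (-v a)
    have hδ0 : 0 < δ := by rw [hδ]; exact lt_min one_pos (by positivity)
    have hδ1 : δ ≤ 1 := by rw [hδ]; exact min_le_left _ _
    have hδ2 : δ * (4 * Real.exp (-v a)) ≤ ε := by
      rw [← le_div_iff₀ (by positivity), hδ]
      exact min_le_right _ _
    filter_upwards [h10 δ hδ0] with k hk x hx
    have h11 := hk x hx
    rw [Real.dist_eq] at h11 ⊢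
    rw [wk_eq (hp _) (hr0 _), hgx]
    obtain ⟨u, hu⟩ : ∃ u, u = scl (fun n => Vc (C (φ k)) n / r (φ k)) (r (φ k)) x := ⟨_, rfl⟩
    rw [← hu] at h11 ⊢
    have e : Real.exp (-v x) - Real.exp (-u) = -(Real.exp (-v x) * (Real.exp (v x - u) - 1)) := by
      rw [mul_sub, ← Real.exp_add]
      ring_nf
    rw [e, abs_neg, abs_mul, abs_of_pos (Real.exp_pos _)]
    have h12 := Real.abs_exp_sub_one_le (x := v x - u) (h11.le.trans hδ1)
    have h13 : Real.exp (-v x) ≤ Real.exp (-v a) := by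
      refine Real.exp_le_exp.2 ?_
      have := h7 a x ha hx.1
      have h14 : 0 ≤ s * (x - a) := mul_nonneg h3 (by linarith [hx.1])
      linarith
    calc Real.exp (-v x) * |Real.exp (v x - u) - 1| ≤ Real.exp (-v a) * (2 * |v x - u|) :=
          mul_le_mul h13 h12 (abs_nonneg _) hea.le
      _ ≤ Real.exp (-v a) * (2 * δ) := by
          refine mul_le_mul_of_nonneg_left ?_ hea.le
          linarith
      _ < ε := by
          have : 0 < Real.exp (-v a) * δ := by positivity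
          linarith
  have hpt : ∀ x : ℝ, 0 < x → Tendsto (fun k => wk (C (φ k)) (r (φ k)) x) atTop (𝓝 (g x)) :=
    fun x hx => (hunif x x hx le_rfl).tendsto_at (Set.left_mem_Icc.2 le_rfl)
  have hcont : ContinuousOn g (Set.Ioi 0) := by
    rw [hg]
    exact (h5.continuousOn isOpen_Ioi).neg.rexp
  have hrt : Tendsto (fun k => (r (φ k) : ℝ)) atTop atTop :=
    tendsto_natCast_atTop_atTop.comp (hr.comp hφ.tendsto_atTop)
  have hfl : ∀ x : ℝ, 0 ≤ x → Tendsto (fun k => (⌊x * (r (φ k) : ℝ)⌋₊ : ℝ) / (r (φ k) : ℝ)) atTop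
      (𝓝 x) := fun x hx => (tendsto_nat_floor_mul_div_atTop hx).comp hrt
  have hlg : ∀ {x : ℝ}, 0 < x → ∀ {n : ℕ → ℕ},
      Tendsto (fun k => (n k : ℝ) / r (φ k)) atTop (𝓝 x) →
      Tendsto (fun k => C (φ k) (n k) / C (φ k) (r (φ k))) atTop (𝓝 (g x)) := fun {x} hx {n} hn =>
    lim_gen (C := fun k => C (φ k)) (fun k => hC _) (fun k => hp _) (r := fun k => r (φ k))
      (fun k => hr0 _) hcont hpt hx hn
  have hvm : ∀ x y : ℝ, 0 < x → x ≤ y → v x ≤ v y := fun x y hx hxy => by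
    have := h7 x y hx hxy
    have h14 : 0 ≤ s * (y - x) := mul_nonneg h3 (by linarith)
    linarith
  have hos : Os g := by
    refine ⟨hcont, fun x _ => by rw [hgx]; exact Real.exp_pos _, fun x y hx hxy => ?_, ?_, ?_⟩
    · rw [hgx, hgx]
      exact Real.exp_le_exp.2 (neg_le_neg (hvm x y hx hxy))
    · rw [hgx, h6, neg_zero, Real.exp_zero]
    · intro ι S z τ hτ
      have hl : Tendsto (fun k => ∑ i ∈ S, ∑ j ∈ S, z i * z j *
          (C (φ k) (⌊τ i * r (φ k)⌋₊ + ⌊τ j * r (φ k)⌋₊) / C (φ k) (r (φ k)))) atTop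
          (𝓝 (∑ i ∈ S, ∑ j ∈ S, z i * z j * g (τ i + τ j))) := by
        refine tendsto_finsetSum _ fun i _ => tendsto_finsetSum _ fun j _ => ?_
        refine Tendsto.const_mul _ (hlg (add_pos (hτ i) (hτ j)) ?_)
        refine ((hfl _ (hτ i).le).add (hfl _ (hτ j).le)).congr fun k => ?_
        push_cast
        ring
      refine ge_of_tendsto' hl fun k => ?_
      have h10 := (hC (φ k)).p0 ι S z (fun i => ⌊τ i * r (φ k)⌋₊)
      have e : ∑ i ∈ S, ∑ j ∈ S, z i * z j *
          (C (φ k) (⌊τ i * r (φ k)⌋₊ + ⌊τ j * r (φ k)⌋₊) / C (φ k) (r (φ k))) =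
          (∑ i ∈ S, ∑ j ∈ S, z i * z j *
          C (φ k) (⌊τ i * r (φ k)⌋₊ + ⌊τ j * r (φ k)⌋₊)) / C (φ k) (r (φ k)) := by
        rw [Finset.sum_div]
        refine Finset.sum_congr rfl fun i _ => ?_
        rw [Finset.sum_div]
        refine Finset.sum_congr rfl fun j _ => ?_
        ring
      rw [e]
      exact div_nonneg h10 (hp _ _).le
  obtain ⟨σ, hσp, -, hσ⟩ := spectral hos
  have hσg : g = fun x => if 0 < x then ∫ E, Real.exp (-(E * (x - 1))) ∂σ else g x := by
    funext x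
    split_ifs with h
    · exact (hσ x h).2.symm
    · rfl
  have hmean := mean_eq hσ (c := c) (fun x hx => by
    rw [hgx]
    refine Real.exp_le_exp.2 (neg_le_neg ?_)
    rcases le_total x 1 with h | h
    · have := (h8 x 1 hx h le_rfl).1
      rw [h6] at this
      linarith
    · have := h9 1 x le_rfl h
      rw [h6] at this
      linarith)
  refine ⟨φ, hφ, s, σ, hσp, h3, h4, ?_, supp hσ fun x hx => ?_, hmean.1, hmean.2,
    fun x hx => (hσ x hx).1, fun x y hx hxy hy => ?_, fun a b ha hab => ?_⟩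
  · refine h2.congr fun k => ?_
    have := (hrR (φ k)).ne'
    field_simp
  · rw [hgx]
    refine Real.exp_le_exp.2 (neg_le_neg ?_)
    have := h7 1 x one_pos hx
    rw [h6] at this
    linarith
  · -- the power law bound
    have hy0 : 0 < y := hx.trans_le hxy
    rw [(hσ x hx).2, (hσ y hy0).2]
    have t1 := hlg hx (hfl x hx.le)
    have t2 := hlg hy0 (hfl y hy0.le)
    have hinv : Tendsto (fun k => 1 / (r (φ k) : ℝ)) atTop (𝓝 0) := by
      simp only [one_div]
      exact tendsto_inv_atTop_zero.comp hrt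
    have t3 : Tendsto (fun k => (((⌊y * (r (φ k) : ℝ)⌋₊ : ℝ) / (r (φ k) : ℝ) - 1 / (r (φ k) : ℝ)) /
        ((⌊x * (r (φ k) : ℝ)⌋₊ : ℝ) / (r (φ k) : ℝ) - 1 / (r (φ k) : ℝ))) ^ c) atTop
        (𝓝 (((y - 0) / (x - 0)) ^ c)) := by
      refine Tendsto.rpow_const ?_ (Or.inr hc.le)
      exact ((hfl y hy0.le).sub hinv).div ((hfl x hx.le).sub hinv) (by linarith)
    rw [sub_zero, sub_zero] at t3
    refine le_of_tendsto_of_tendsto t1 (t3.mul t2) ?_
    have hbig : ∀ᶠ k in atTop, 2 ≤ ⌊x * (r (φ k) : ℝ)⌋₊ := by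
      have h1 := (tendsto_nat_floor_atTop (α := ℝ)).comp (hrt.const_mul_atTop hx)
      exact h1.eventually_ge_atTop 2
    filter_upwards [hbig] with k hk
    have hle : ⌊x * (r (φ k) : ℝ)⌋₊ ≤ ⌊y * (r (φ k) : ℝ)⌋₊ :=
      Nat.floor_mono (mul_le_mul_of_nonneg_right hxy (hrR _).le)
    have hler : ⌊y * (r (φ k) : ℝ)⌋₊ ≤ r (φ k) := by
      have : y * (r (φ k) : ℝ) ≤ r (φ k) := by
        have := mul_le_mul_of_nonneg_right hy (hrR (φ k)).le
        linarith
      have h2 := Nat.floor_mono this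
      rwa [Nat.floor_natCast] at h2
    have h10 := pow_low hc.le hk hle (V := Vc (C (φ k))) fun R hR hR' => by
      have := (hs (φ k)).lt R (by omega) (by omega)
      rwa [eff_eq (hp _)] at this
    obtain ⟨a, ha⟩ : ∃ a : ℕ, a = ⌊x * (r (φ k) : ℝ)⌋₊ := ⟨_, rfl⟩
    obtain ⟨b, hb⟩ : ∃ b : ℕ, b = ⌊y * (r (φ k) : ℝ)⌋₊ := ⟨_, rfl⟩
    rw [← ha, ← hb] at h10 ⊢
    rw [← ha] at hk hle
    rw [← hb] at hle
    have ha1 : (0 : ℝ) < (a : ℝ) - 1 := by
      have : (2 : ℝ) ≤ a := by exact_mod_cast hk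
      linarith
    have hb1 : (0 : ℝ) < (b : ℝ) - 1 := by
      have : (2 : ℝ) ≤ b := by exact_mod_cast hk.trans hle
      linarith
    have e1 : ((b : ℝ) / r (φ k) - 1 / r (φ k)) / ((a : ℝ) / r (φ k) - 1 / r (φ k)) =
        ((b : ℝ) - 1) / ((a : ℝ) - 1) := by
      have := (hrR (φ k)).ne'
      have h' := ha1.ne'
      rw [← sub_div, ← sub_div]
      field_simp
    rw [e1, exp_V (hp _) (r (φ k)) a, exp_V (hp _) (r (φ k)) b,
      Real.rpow_def_of_pos (div_pos hb1 ha1), ← Real.exp_add, Real.log_div hb1.ne' ha1.ne']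
    refine Real.exp_le_exp.2 ?_
    linarith
  · have h10 := hunif a b ha hab
    refine h10.congr_right fun x hx => ?_
    exact (hσ x (ha.trans_le hx.1)).2.symm

end

end Pool.Agent.W2helper10.GS
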