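import Mathlib
import Pool.Agent.W2helper67.YM.Green

/-!
# The correlation of two plaquettes of the free lattice Maxwell field along an orthogonal direction
-/

open MeasureTheory Filter Set
open scoped Topology Pointwise
open Pool.Agent.W2helper67.YM

namespace Pool.Agent.W2helper10.MK

set_option linter.unusedSectionVars false
set_option linter.unusedVariables false

noncomputable section

/-- `4 sin ^ 2 (π x)` -/
def gg (x : ℝ) : ℝ := 2 * (1 - Real.cos (2 * Real.pi * x))

lemma gg_nn (x : ℝ) : 0 ≤ gg x := by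
  have := Real.cos_le_one (2 * Real.pi * x)
  unfold gg
  linarith

lemma gg_le (x : ℝ) : gg x ≤ 4 := by
  have := Real.neg_one_le_cos (2 * Real.pi * x)
  unfold gg
  linarith

lemma gg_cont : Continuous gg := by
  unfold gg
  fun_prop

lemma pi_sq : Real.pi ^ 2 ≤ 10 := by
  have h1 := Real.pi_lt_d2
  have h2 := Real.pi_pos
  nlinarith

lemma gg_up (x : ℝ) : gg x ≤ 40 * x ^ 2 := by
  have h1 := Real.one_sub_sq_div_two_le_cos (x := 2 * Real.pi * x)
  have h2 := mul_le_mul_of_nonneg_right pi_sq (sq_nonneg x)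
  unfold gg
  nlinarith

lemma gg_low {x : ℝ} (hx : |x| ≤ 1 / 2) : 16 * x ^ 2 ≤ gg x := by
  have h1 := Real.cos_le_one_sub_mul_cos_sq (x := 2 * Real.pi * x) (by
    rw [abs_mul, abs_of_pos (by positivity : 0 < 2 * Real.pi)]
    have := mul_le_mul_of_nonneg_left hx (by positivity : 0 ≤ 2 * Real.pi)
    linarith)
  have h2 : 2 / Real.pi ^ 2 * (2 * Real.pi * x) ^ 2 = 8 * x ^ 2 := by
    have := Real.pi_ne_zero
    field_simp
    ring
  rw [h2] at h1
  unfold gg
  linarith

lemma gg_sc1 {a x : ℝ} (hx : |x| ≤ 1 / 2) : gg (a * x) ≤ 5 / 2 * a ^ 2 * gg x := by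
  have h1 := gg_up (a * x)
  have h2 := mul_le_mul_of_nonneg_left (gg_low hx) (by positivity : 0 ≤ 5 / 2 * a ^ 2)
  linarith [mul_pow a x 2]

lemma gg_sc2 {a x : ℝ} (ha : |a| ≤ 1) (hx : |x| ≤ 1 / 2) : 2 / 5 * a ^ 2 * gg x ≤ gg (a * x) := by
  have h0 : |a * x| ≤ 1 / 2 := by
    rw [abs_mul]
    calc |a| * |x| ≤ 1 * (1 / 2) := mul_le_mul ha hx (abs_nonneg _) zero_le_one
      _ = 1 / 2 := one_mul _
  have h1 := gg_low h0
  have h2 := mul_le_mul_of_nonneg_left (gg_up x) (by positivity : 0 ≤ 2 / 5 * a ^ 2)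
  linarith [mul_pow a x 2]

/-! ### the root -/

/-- the root of `r + 1 / r = 2 + s` in `(0, 1]` -/
def rr (s : ℝ) : ℝ := 1 + s / 2 - Real.sqrt (s + s ^ 2 / 4)

lemma rr_eq {s : ℝ} (hs : 0 ≤ s) : rr s ^ 2 + 1 = (2 + s) * rr s := by
  have h := Real.sq_sqrt (show 0 ≤ s + s ^ 2 / 4 by positivity)
  unfold rr
  nlinarith

lemma rr_pos {s : ℝ} (hs : 0 ≤ s) : 0 < rr s := by
  unfold rr
  have h : Real.sqrt (s + s ^ 2 / 4) < 1 + s / 2 := by
    rw [Real.sqrt_lt' (by positivity)]
    nlinarith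
  linarith

lemma rr_le {s : ℝ} (hs : 0 ≤ s) : rr s ≤ 1 := by
  unfold rr
  have h : s / 2 ≤ Real.sqrt (s + s ^ 2 / 4) := Real.le_sqrt_of_sq_le (by nlinarith)
  linarith

lemma rr_lt {s : ℝ} (hs : 0 < s) : rr s < 1 := by
  unfold rr
  have h : s / 2 < Real.sqrt (s + s ^ 2 / 4) := Real.lt_sqrt_of_sq_lt (by nlinarith)
  linarith

lemma root_le {p q A B : ℝ} (hp : 0 < p) (hp1 : p ≤ 1) (hq : 0 < q) (hpA : p ^ 2 + 1 = A * p)
    (hqB : q ^ 2 + 1 = B * q) (hBA : B ≤ A) : p ≤ q := by
  by_contra hc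
  push Not at hc
  have h1 : (p - q) * (p * q - 1) = p * q * (A - B) := by
    linear_combination q * hpA - p * hqB
  have h2 : p * q < 1 := by nlinarith
  have h3 : (p - q) * (p * q - 1) < 0 := mul_neg_of_pos_of_neg (by linarith) (by linarith)
  have h4 : 0 ≤ p * q * (A - B) := by
    have : 0 ≤ A - B := by linarith
    positivity
  linarith

lemma rr_half {s s' : ℝ} (hs : 0 ≤ s) (h : 4 * s + s ^ 2 ≤ s') : rr s' ≤ rr s ^ 2 := by
  have hs' : 0 ≤ s' := le_trans (by positivity) h
  refine root_le (rr_pos hs') (rr_le hs') (pow_pos (rr_pos hs) 2) (rr_eq hs')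
    (B := 2 + (4 * s + s ^ 2)) ?_ (by linarith)
  have h1 := rr_eq hs
  linear_combination (rr s ^ 2 + 1 + (2 + s) * rr s) * h1

/-! ### the one dimensional integral -/

/-- the integral over one momentum -/
def J (t : ℕ) (s : ℝ) : ℝ :=
  ∫ v in Icc (0 : ℝ) 1, Real.cos (2 * Real.pi * (v * t)) / (s + gg v)

lemma den_pos {s : ℝ} (hs : 0 < s) (v : ℝ) : 0 < s + gg v := by
  have := gg_nn v
  linarith

lemma J_int (t : ℕ) {s : ℝ} (hs : 0 < s) :
    IntegrableOn (fun v => Real.cos (2 * Real.pi * (v * t)) / (s + gg v)) (Icc (0 : ℝ) 1) := by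
  refine Continuous.integrableOn_Icc ?_
  refine Continuous.div (by fun_prop) (continuous_const.add gg_cont) fun v => (den_pos hs v).ne'

lemma cos_int (t : ℕ) : ∫ v in Icc (0 : ℝ) 1, Real.cos (2 * Real.pi * (v * (t + 1 : ℕ))) = 0 := by
  rw [integral_Icc_eq_integral_Ioc, ← intervalIntegral.integral_of_le zero_le_one]
  have hc : (2 * Real.pi * (t + 1 : ℕ)) ≠ 0 := by positivity
  have h1 : (fun v : ℝ => Real.cos (2 * Real.pi * (v * (t + 1 : ℕ)))) =
      fun v => Real.cos ((2 * Real.pi * (t + 1 : ℕ)) * v) := by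
    funext v
    ring_nf
  rw [h1, intervalIntegral.integral_comp_mul_left (fun v => Real.cos v) hc, integral_cos]
  have h2 : Real.sin ((2 * Real.pi * (t + 1 : ℕ)) * 1) = 0 := by
    have := Real.sin_nat_mul_pi (2 * (t + 1))
    rw [← this]
    push_cast
    ring_nf
  rw [h2]
  simp

lemma J_rec (t : ℕ) {s : ℝ} (hs : 0 < s) : J (t + 2) s + J t s = (2 + s) * J (t + 1) s := by
  have h0 := J_int t hs
  have h1 := J_int (t + 1) hs
  have h2 := J_int (t + 2) hs
  have h3 : J (t + 2) s + J t s - (2 + s) * J (t + 1) s =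
      -∫ v in Icc (0 : ℝ) 1, Real.cos (2 * Real.pi * (v * (t + 1 : ℕ))) := by
    have h4 : IntegrableOn (fun v => Real.cos (2 * Real.pi * (v * (t + 2 : ℕ))) / (s + gg v) +
        Real.cos (2 * Real.pi * (v * t)) / (s + gg v)) (Icc (0 : ℝ) 1) := h2.add h0
    unfold J
    rw [← integral_const_mul, ← integral_add h2 h0,
      ← integral_sub h4 (h1.const_mul (2 + s)), ← integral_neg]
    refine integral_congr_ae (Filter.Eventually.of_forall fun v => ?_)
    simp only
    have hd := (den_pos hs v).ne'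
    have e1 : Real.cos (2 * Real.pi * (v * (t + 2 : ℕ))) + Real.cos (2 * Real.pi * (v * t)) =
        2 * Real.cos (2 * Real.pi * (v * (t + 1 : ℕ))) * Real.cos (2 * Real.pi * v) := by
      have := Real.cos_add (2 * Real.pi * (v * (t + 1 : ℕ))) (2 * Real.pi * v)
      have h' := Real.cos_sub (2 * Real.pi * (v * (t + 1 : ℕ))) (2 * Real.pi * v)
      have a1 : 2 * Real.pi * (v * (t + 2 : ℕ)) =
          2 * Real.pi * (v * (t + 1 : ℕ)) + 2 * Real.pi * v := by push_cast; ring
      have a2 : 2 * Real.pi * (v * t) =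
          2 * Real.pi * (v * (t + 1 : ℕ)) - 2 * Real.pi * v := by push_cast; ring
      rw [a1, a2, this, h']
      ring
    rw [← add_div, e1, ← mul_div_assoc, ← sub_div, div_eq_iff hd]
    unfold gg
    ring
  rw [cos_int, neg_zero, sub_eq_zero] at h3
  exact h3

lemma J_bd (t : ℕ) {s : ℝ} (hs : 0 < s) : |J t s| ≤ 1 / s := by
  have h := norm_setIntegral_le_of_norm_le_const (μ := volume) (s := Icc (0 : ℝ) 1)
    (f := fun v => Real.cos (2 * Real.pi * (v * t)) / (s + gg v)) (C := 1 / s)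
    (by simp) (fun v _ => by
      rw [Real.norm_eq_abs, abs_div, abs_of_pos (den_pos hs v)]
      have := gg_nn v
      exact div_le_div₀ zero_le_one (Real.abs_cos_le_one _) hs (by linarith))
  simpa [J] using h

lemma J_step (t : ℕ) {s : ℝ} (hs : 0 < s) : J (t + 1) s = rr s * J t s := by
  have hr := rr_eq hs.le
  have hr0 := rr_pos hs.le
  have hr1 := rr_lt hs
  have hD : ∀ t : ℕ, J (t + 1) s - rr s * J t s = rr s * (J (t + 2) s - rr s * J (t + 1) s) := by
    intro t
    have := J_rec t hs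
    linear_combination (-rr s) * this + J (t + 1) s * hr
  have hk : ∀ k t : ℕ, J (t + 1) s - rr s * J t s =
      rr s ^ k * (J (t + k + 1) s - rr s * J (t + k) s) := by
    intro k
    induction k with
    | zero => intro t; simp
    | succ k ih =>
      intro t
      have h1 := hD (t + k)
      rw [ih t, h1, pow_succ]
      have e1 : t + (k + 1) + 1 = t + k + 2 := by ring
      have e2 : t + (k + 1) = t + k + 1 := by ring
      rw [e1, e2]
      ring
  have hb : ∀ k : ℕ, |J (t + 1) s - rr s * J t s| ≤ rr s ^ k * (2 / s) := by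
    intro k
    rw [hk k t, abs_mul, abs_of_pos (pow_pos hr0 k)]
    refine mul_le_mul_of_nonneg_left ?_ (pow_pos hr0 k).le
    have h1 := J_bd (t + k + 1) hs
    have h2 := J_bd (t + k) hs
    have h3 : |rr s * J (t + k) s| ≤ 1 / s := by
      rw [abs_mul, abs_of_pos hr0]
      have h4 := mul_le_mul hr1.le h2 (abs_nonneg _) zero_le_one
      linarith
    have h5 := abs_sub (J (t + k + 1) s) (rr s * J (t + k) s)
    have h6 : 2 / s = 1 / s + 1 / s := by ring
    linarith
  have hlim : Tendsto (fun k : ℕ => rr s ^ k * (2 / s)) atTop (𝓝 (0 * (2 / s))) :=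
    (tendsto_pow_atTop_nhds_zero_of_lt_one hr0.le hr1).mul_const _
  rw [zero_mul] at hlim
  have h7 := ge_of_tendsto' hlim hb
  have h8 := abs_eq_zero.1 (le_antisymm h7 (abs_nonneg _))
  linarith

lemma J_pow (t : ℕ) {s : ℝ} (hs : 0 < s) : J t s = J 0 s * rr s ^ t := by
  induction t with
  | zero => simp
  | succ t ih => rw [J_step t hs, ih, pow_succ]; ring

lemma J_zero (s : ℝ) : J 0 s = ∫ v in Icc (0 : ℝ) 1, 1 / (s + gg v) := by
  unfold J
  simp

lemma J0_int {s : ℝ} (hs : 0 < s) :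
    IntegrableOn (fun v => 1 / (s + gg v)) (Icc (0 : ℝ) 1) := by
  refine Continuous.integrableOn_Icc ?_
  exact Continuous.div continuous_const (continuous_const.add gg_cont) fun v => (den_pos hs v).ne'

lemma J0_anti {s s' : ℝ} (hs : 0 < s) (h : s ≤ s') : J 0 s' ≤ J 0 s := by
  rw [J_zero, J_zero]
  refine integral_mono (J0_int (hs.trans_le h)) (J0_int hs) fun v => ?_
  exact one_div_le_one_div_of_le (den_pos hs v) (by linarith)

lemma J0_pos {s : ℝ} (hs : 0 < s) : 0 < J 0 s := by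
  rw [J_zero]
  have h1 : ∫ v in Icc (0 : ℝ) 1, 1 / (s + 4) ≤ ∫ v in Icc (0 : ℝ) 1, 1 / (s + gg v) := by
    refine integral_mono (integrable_const _) (J0_int hs) fun v => ?_
    exact one_div_le_one_div_of_le (den_pos hs v) (by linarith [gg_le v])
  have h2 : ∫ v in Icc (0 : ℝ) 1, 1 / (s + 4) = 1 / (s + 4) := by simp
  rw [h2] at h1
  have : 0 < 1 / (s + 4) := by positivity
  linarith

/-! ### several dimensions -/

/-- the sum over the momenta -/
def sm {n : ℕ} (k : Fin n → ℝ) : ℝ := ∑ i, gg (k i)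

section nd

variable {n : ℕ}

lemma sm_cont : Continuous (sm : (Fin n → ℝ) → ℝ) := by
  unfold sm
  exact continuous_finsetSum _ fun i _ => gg_cont.comp (continuous_apply i)

lemma sm_nn (k : Fin n → ℝ) : 0 ≤ sm k := Finset.sum_nonneg fun i _ => gg_nn _

lemma sm_le (k : Fin n → ℝ) : sm k ≤ 4 * n := by
  unfold sm
  calc ∑ i, gg (k i) ≤ ∑ _i : Fin n, (4 : ℝ) := Finset.sum_le_sum fun i _ => gg_le _
    _ = 4 * n := by simp [mul_comm]

lemma ww_le {i j : Fin n} (hij : i ≠ j) (k : Fin n → ℝ) : gg (k i) + gg (k j) ≤ sm k := by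
  unfold sm
  have h := Finset.sum_le_sum_of_subset_of_nonneg (Finset.subset_univ ({i, j} : Finset (Fin n)))
    (f := fun l => gg (k l)) fun l _ _ => gg_nn _
  rwa [Finset.sum_pair hij] at h

lemma cube_meas : MeasurableSet (cube n) := MeasurableSet.univ_pi fun _ => measurableSet_Icc

lemma fin_cube : IsFiniteMeasure ((volume : Measure (Fin n → ℝ)).restrict (cube n)) := by
  have hfin : (volume : Measure (Fin n → ℝ)) (cube n) < ⊤ := by
    have : IsCompact (cube n) := isCompact_univ_pi fun _ => isCompact_Icc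
    exact this.measure_lt_top
  exact ⟨by rw [Measure.restrict_apply_univ]; exact hfin⟩

lemma cont_int {f : (Fin n → ℝ) → ℝ} (hf : Continuous f) : IntegrableOn f (cube n) :=
  hf.continuousOn.integrableOn_compact (isCompact_univ_pi fun _ => isCompact_Icc)

theorem hs_gen (hd : 3 ≤ n) {φ : (Fin n → ℝ) → ℝ} (hφ : Continuous φ) {B : ℝ}
    (hB : ∀ u, |φ u| ≤ B) :
    HasSum (fun m : ℕ => ∫ u in cube n, (1 / (4 * n) : ℝ) * (lu u ^ m * φ u))
      (∫ u in cube n, φ u / sm u) := by
  have hd1 : 0 < n := by omega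
  have hd0 : (0 : ℝ) < n := by exact_mod_cast hd1
  have := fin_cube (n := n)
  have hB0 : 0 ≤ B := (abs_nonneg _).trans (hB 0)
  have hc : ∀ m : ℕ, Continuous fun u : Fin n → ℝ => (1 / (4 * n) : ℝ) *
      (lu u ^ m * φ u) := fun m =>
    continuous_const.mul ((lu_cont.pow m).mul hφ)
  have hb : ∀ (m : ℕ) (u : Fin n → ℝ), ‖(1 / (4 * n) : ℝ) * (lu u ^ m * φ u)‖ ≤
      B * ((1 / (4 * n) : ℝ) * lu u ^ m) := by
    intro m u
    rw [Real.norm_eq_abs, abs_mul, abs_mul, abs_of_nonneg (pow_nonneg (lu_nonneg hd1 u) m),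
      abs_of_nonneg (by positivity : (0 : ℝ) ≤ 1 / (4 * n))]
    have h1 := mul_le_mul_of_nonneg_left (hB u) (pow_nonneg (lu_nonneg hd1 u) m)
    have h2 := mul_le_mul_of_nonneg_left h1 (by positivity : (0 : ℝ) ≤ 1 / (4 * n))
    linarith
  have hsum : Summable fun m : ℕ => ∫ u in cube n, ‖(1 / (4 * n) : ℝ) *
      (lu u ^ m * φ u)‖ := by
    refine Summable.of_nonneg_of_le (fun m => integral_nonneg fun u => norm_nonneg _)
      (fun m => ?_) (((pz_summable hd (0 : Fin n → ℤ)).mul_left (1 / (4 * n) : ℝ)).mul_left B)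
    calc _ ≤ ∫ u in cube n, B * ((1 / (4 * n) : ℝ) * lu u ^ m) :=
          integral_mono (cont_int (hc m)).norm (cont_int (continuous_const.mul
            (continuous_const.mul (lu_cont.pow m)))) fun u => hb m u
      _ = B * ((1 / (4 * n) : ℝ) * pz n m 0) := by
          rw [pz_eq hd1, integral_const_mul, integral_const_mul]
          congr 2
          refine integral_congr_ae (Filter.Eventually.of_forall fun u => ?_)
          simp [pu]
  have h1 := hasSum_integral_of_summable_integral_norm (fun m => cont_int (hc m)) hsum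
  have h3 : ∫ u in cube n, (∑' m : ℕ, (1 / (4 * n) : ℝ) * (lu u ^ m * φ u)) =
      ∫ u in cube n, φ u / sm u := by
    refine integral_congr_ae (Filter.Eventually.of_forall fun u => ?_)
    simp only
    obtain ⟨S, hS⟩ : ∃ S, S = sm u := ⟨_, rfl⟩
    have hl : lu u = 1 - (1 / (4 * n) : ℝ) * S := by rw [hS]; exact lu_eq hd1 u
    rw [← hS]
    have e1 : ∀ m : ℕ, (1 / (4 * n) : ℝ) * (lu u ^ m * φ u) =
        (1 / (4 * n) : ℝ) * φ u * lu u ^ m := fun m => by ring
    simp only [e1]
    rcases (lu_le hd1 u).lt_or_eq with hlt | heq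
    · rw [tsum_mul_left, tsum_geometric_of_lt_one (lu_nonneg hd1 u) hlt]
      have hS0 : S ≠ 0 := by
        rintro rfl
        rw [mul_zero, sub_zero] at hl
        exact absurd hl hlt.ne
      have e2 : 1 - lu u = (1 / (4 * n) : ℝ) * S := by rw [hl]; ring
      rw [e2, mul_inv]
      field_simp
    · have hS0 : S = 0 := by
        rw [heq] at hl
        have : (1 / (4 * n) : ℝ) * S = 0 := by linarith
        rcases mul_eq_zero.1 this with h | h
        · exfalso
          have : (0 : ℝ) < 1 / (4 * n) := by positivity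
          linarith
        · exact h
      rw [hS0, div_zero, heq]
      simp only [one_pow, mul_one]
      by_cases hcos : φ u = 0
      · simp [hcos]
      · refine tsum_eq_zero_of_not_summable fun hs => ?_
        have := hs.tendsto_atTop_zero
        have h5 := tendsto_nhds_unique this tendsto_const_nhds
        have h6 : (1 / (4 * n) : ℝ) ≠ 0 := by positivity
        exact (mul_ne_zero h6 hcos) h5.symm
  rw [h3] at h1
  exact h1

/-- the covariance of the plaquettes -/
def KK (i j : Fin n) (y : Fin n → ℤ) : ℝ :=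
  4 * gr y - gr (y + Pi.single i 1) - gr (y - Pi.single i 1) - gr (y + Pi.single j 1) -
    gr (y - Pi.single j 1)

lemma pu_add (y : Fin n → ℤ) (i : Fin n) (u : Fin n → ℝ) :
    pu (y + Pi.single i 1) u = pu y u + 2 * Real.pi * u i := by
  unfold pu
  have h : ∑ l, u l * ((y + Pi.single i 1 : Fin n → ℤ) l : ℝ) = ∑ l, u l * (y l : ℝ) + u i := by
    have e : ∀ l, u l * ((y + Pi.single i 1 : Fin n → ℤ) l : ℝ) = u l * (y l : ℝ) +
        if l = i then u l else 0 := by
      intro l
      by_cases hl : l = i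
      · subst hl; simp; ring
      · simp [hl]
    simp only [e, Finset.sum_add_distrib]
    simp
  rw [h]
  ring

lemma pu_sub (y : Fin n → ℤ) (i : Fin n) (u : Fin n → ℝ) :
    pu (y - Pi.single i 1) u = pu y u - 2 * Real.pi * u i := by
  have := pu_add (y - Pi.single i 1) i u
  rw [sub_add_cancel] at this
  linarith

lemma cos_pair (y : Fin n → ℤ) (i : Fin n) (u : Fin n → ℝ) :
    2 * Real.cos (pu y u) - Real.cos (pu (y + Pi.single i 1) u) -
      Real.cos (pu (y - Pi.single i 1) u) = Real.cos (pu y u) * gg (u i) := by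
  rw [pu_add, pu_sub, Real.cos_add, Real.cos_sub]
  unfold gg
  ring

theorem KK_eq (hd : 3 ≤ n) (i j : Fin n) (y : Fin n → ℤ) :
    KK i j y = ∫ u in cube n, Real.cos (pu y u) * (gg (u i) + gg (u j)) / sm u := by
  have hd1 : 0 < n := by omega
  have h1 := hs_gen hd (φ := fun u => Real.cos (pu y u) * (gg (u i) + gg (u j)))
    ((Real.continuous_cos.comp (pu_cont y)).mul ((gg_cont.comp (continuous_apply i)).add
      (gg_cont.comp (continuous_apply j)))) (B := 8) (fun u => by
      have a1 := gg_nn (u i)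
      have a2 := gg_nn (u j)
      have a3 := gg_le (u i)
      have a4 := gg_le (u j)
      rw [abs_mul, abs_of_nonneg (by linarith : 0 ≤ gg (u i) + gg (u j))]
      have := mul_le_mul (Real.abs_cos_le_one (pu y u))
        (by linarith : gg (u i) + gg (u j) ≤ 8) (by linarith) zero_le_one
      linarith)
  have h2 := ((((gr_hasSum hd y).mul_left 4).sub (gr_hasSum hd (y + Pi.single i 1))).sub
    (gr_hasSum hd (y - Pi.single i 1))).sub (gr_hasSum hd (y + Pi.single j 1))
  have h3 := h2.sub (gr_hasSum hd (y - Pi.single j 1))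
  refine HasSum.unique h3 (h1.congr_fun fun m => ?_)
  have hf : ∀ z : Fin n → ℤ, IntegrableOn (fun u => lu u ^ m * Real.cos (pu z u)) (cube n) :=
    fun z => cont_int ((lu_cont.pow m).mul (Real.continuous_cos.comp (pu_cont z)))
  rw [pz_eq hd1, pz_eq hd1, pz_eq hd1, pz_eq hd1, pz_eq hd1]
  have e1 : ∫ u in cube n, (1 / (4 * n) : ℝ) * (lu u ^ m * (Real.cos (pu y u) *
      (gg (u i) + gg (u j)))) = (1 / (4 * n) : ℝ) * ∫ u in cube n,
        (4 * (lu u ^ m * Real.cos (pu y u)) - lu u ^ m * Real.cos (pu (y + Pi.single i 1) u) -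
          lu u ^ m * Real.cos (pu (y - Pi.single i 1) u) -
          lu u ^ m * Real.cos (pu (y + Pi.single j 1) u) -
          lu u ^ m * Real.cos (pu (y - Pi.single j 1) u)) := by
    rw [← integral_const_mul]
    refine integral_congr_ae (Filter.Eventually.of_forall fun u => ?_)
    simp only
    have c1 := cos_pair y i u
    have c2 := cos_pair y j u
    linear_combination (-(1 / (4 * n) : ℝ) * lu u ^ m) * (c1 + c2)
  have i1 : IntegrableOn (fun u => 4 * (lu u ^ m * Real.cos (pu y u))) (cube n) :=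
    (hf y).const_mul 4
  have i2 : IntegrableOn (fun u => 4 * (lu u ^ m * Real.cos (pu y u)) -
      lu u ^ m * Real.cos (pu (y + Pi.single i 1) u)) (cube n) := i1.sub (hf _)
  have i3 : IntegrableOn (fun u => 4 * (lu u ^ m * Real.cos (pu y u)) -
      lu u ^ m * Real.cos (pu (y + Pi.single i 1) u) -
      lu u ^ m * Real.cos (pu (y - Pi.single i 1) u)) (cube n) := i2.sub (hf _)
  have i4 : IntegrableOn (fun u => 4 * (lu u ^ m * Real.cos (pu y u)) -
      lu u ^ m * Real.cos (pu (y + Pi.single i 1) u) -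
      lu u ^ m * Real.cos (pu (y - Pi.single i 1) u) -
      lu u ^ m * Real.cos (pu (y + Pi.single j 1) u)) (cube n) := i3.sub (hf _)
  rw [e1, integral_sub i4 (hf _), integral_sub i3 (hf _), integral_sub i2 (hf _),
    integral_sub i1 (hf _), integral_const_mul]
  ring

/-- the measure on the unit interval -/
abbrev mI : Measure ℝ := volume.restrict (Icc (0 : ℝ) 1)

lemma mI_prob : IsProbabilityMeasure mI := ⟨by simp [mI]⟩

lemma cube_pi : (volume : Measure (Fin n → ℝ)).restrict (cube n) = Measure.pi fun _ => mI := by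
  rw [volume_pi, cube, Measure.restrict_pi_pi]

/-- the integrand in the coordinates -/
def GF (i j : Fin n) (t : ℕ) (z : ℝ × (Fin n → ℝ)) : ℝ :=
  Real.cos (2 * Real.pi * (z.1 * t)) * (gg (z.2 i) + gg (z.2 j)) / (sm z.2 + gg z.1)

lemma GF_meas (i j : Fin n) (t : ℕ) : Measurable (GF i j t) := by
  unfold GF
  refine Measurable.div ?_ ?_
  · refine Continuous.measurable ?_
    have h1 : Continuous fun z : ℝ × (Fin n → ℝ) => gg (z.2 i) :=
      gg_cont.comp ((continuous_apply i).comp continuous_snd)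
    have h2 : Continuous fun z : ℝ × (Fin n → ℝ) => gg (z.2 j) :=
      gg_cont.comp ((continuous_apply j).comp continuous_snd)
    exact (by fun_prop : Continuous fun z : ℝ × (Fin n → ℝ) =>
      Real.cos (2 * Real.pi * (z.1 * t))).mul (h1.add h2)
  · exact ((sm_cont.comp continuous_snd).add (gg_cont.comp continuous_fst)).measurable

lemma GF_bd {i j : Fin n} (hij : i ≠ j) (t : ℕ) (z : ℝ × (Fin n → ℝ)) : |GF i j t z| ≤ 1 := by
  unfold GF
  have h1 := ww_le hij z.2
  have h2 := gg_nn z.1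
  have h3 := gg_nn (z.2 i)
  have h4 := gg_nn (z.2 j)
  have h5 := sm_nn z.2
  rw [abs_div, abs_mul, abs_of_nonneg (by linarith : 0 ≤ gg (z.2 i) + gg (z.2 j)),
    abs_of_nonneg (by linarith : 0 ≤ sm z.2 + gg z.1)]
  refine div_le_one_of_le₀ ?_ (by linarith)
  have := mul_le_mul (Real.abs_cos_le_one (2 * Real.pi * (z.1 * t)))
    (by linarith : gg (z.2 i) + gg (z.2 j) ≤ sm z.2 + gg z.1) (by linarith) zero_le_one
  linarith

lemma GF_int {i j : Fin n} (hij : i ≠ j) (t : ℕ) :
    Integrable (GF i j t) (mI.prod (Measure.pi fun _ : Fin n => mI)) := by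
  have := mI_prob
  exact Integrable.of_bound (GF_meas i j t).aestronglyMeasurable 1
    (Filter.Eventually.of_forall fun z => GF_bd hij t z)

/-- the integrand over the spatial momenta -/
def ff (i j : Fin n) (t : ℕ) (k : Fin n → ℝ) : ℝ := (gg (k i) + gg (k j)) * J t (sm k)

lemma ff_eq (i j : Fin n) (t : ℕ) (k : Fin n → ℝ) :
    ∫ v, GF i j t (v, k) ∂mI = ff i j t k := by
  unfold ff J
  rw [← integral_const_mul]
  refine integral_congr_ae (Filter.Eventually.of_forall fun v => ?_)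
  simp only [GF]
  ring

theorem fub (τ : Fin (n + 1)) {i j : Fin n} (hij : i ≠ j) (t : ℕ) :
    ∫ u in cube (n + 1), Real.cos (pu (-Pi.single τ (t : ℤ)) u) *
      (gg (u (τ.succAbove i)) + gg (u (τ.succAbove j))) / sm u = ∫ k in cube n, ff i j t k := by
  have := mI_prob
  have mp := measurePreserving_piFinSuccAbove (fun _ : Fin (n + 1) => mI) τ
  rw [cube_pi, cube_pi, ← mp.symm.integral_comp']
  have h1 : ∀ z : ℝ × (Fin n → ℝ), Real.cos (pu (-Pi.single τ (t : ℤ))
      ((MeasurableEquiv.piFinSuccAbove (fun _ => ℝ) τ).symm z)) *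
      (gg ((MeasurableEquiv.piFinSuccAbove (fun _ => ℝ) τ).symm z (τ.succAbove i)) +
        gg ((MeasurableEquiv.piFinSuccAbove (fun _ => ℝ) τ).symm z (τ.succAbove j))) /
      sm ((MeasurableEquiv.piFinSuccAbove (fun _ => ℝ) τ).symm z) = GF i j t z := by
    rintro ⟨v, k⟩
    have e1 : pu (-Pi.single τ (t : ℤ)) ((MeasurableEquiv.piFinSuccAbove (fun _ => ℝ) τ).symm
        (v, k)) = -(2 * Real.pi * (v * t)) := by
      unfold pu
      rw [Fin.sum_univ_succAbove _ τ]
      simp [MeasurableEquiv.piFinSuccAbove]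
    have e2 : sm ((MeasurableEquiv.piFinSuccAbove (fun _ => ℝ) τ).symm (v, k)) =
        sm k + gg v := by
      unfold sm
      rw [Fin.sum_univ_succAbove _ τ]
      simp [MeasurableEquiv.piFinSuccAbove, add_comm]
    rw [e1, e2, Real.cos_neg]
    unfold GF
    simp [MeasurableEquiv.piFinSuccAbove]
  simp only [h1]
  rw [integral_prod_symm _ (GF_int hij t)]
  refine integral_congr_ae (Filter.Eventually.of_forall fun k => ?_)
  exact ff_eq i j t k

lemma ff_int {i j : Fin n} (hij : i ≠ j) (t : ℕ) : IntegrableOn (ff i j t) (cube n) := by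
  have := mI_prob
  have h := (GF_int hij t).integral_prod_right
  rw [IntegrableOn, cube_pi]
  refine h.congr (Filter.Eventually.of_forall fun k => ?_)
  exact ff_eq i j t k

/-- the symmetric cube -/
abbrev cubs (n : ℕ) : Set (Fin n → ℝ) := {x | ∀ i, x i ∈ Ioc (-1 / 2 : ℝ) (-1 / 2 + 1)}

lemma gg_per : Function.Periodic gg 1 := by
  intro x
  unfold gg
  rw [mul_add, mul_one, Real.cos_add_two_pi]

lemma shift (Φ : (Fin n → ℝ) → ℝ) :
    ∫ k in cube n, Φ (fun i => gg (k i)) = ∫ k in cubs n, Φ (fun i => gg (k i)) := by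
  obtain ⟨c, hc⟩ : ∃ c : UnitAddCircle → ℝ, ∀ x : ℝ, c x = gg x :=
    ⟨gg_per.lift, fun x => gg_per.lift_coe x⟩
  have h1 := UnitAddTorus.integral_preimage
    (fun θ : UnitAddTorus (Fin n) => Φ (fun i => c (θ i))) (fun _ => 0)
  have h2 := UnitAddTorus.integral_preimage
    (fun θ : UnitAddTorus (Fin n) => Φ (fun i => c (θ i))) (fun _ => -1 / 2)
  simp only [hc] at h1 h2
  rw [← h2, h1]
  refine setIntegral_congr_set ?_
  have h3 := Measure.univ_pi_Ioc_ae_eq_Icc (μ := fun _ : Fin n => (volume : Measure ℝ))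
    (f := fun _ => (0 : ℝ)) (g := fun _ => (1 : ℝ))
  have e1 : {x : Fin n → ℝ | ∀ i, x i ∈ Ioc (0 : ℝ) (0 + 1)} =
      Set.pi Set.univ fun _ => Ioc (0 : ℝ) 1 := by
    ext x
    simp
  have e2 : cube n = Icc (fun _ => (0 : ℝ)) (fun _ => (1 : ℝ)) := by
    rw [cube, Set.pi_univ_Icc]
  rw [e1, e2, volume_pi]
  exact h3.symm

lemma ff_nn (i j : Fin n) (t : ℕ) (k : Fin n → ℝ) (hij : i ≠ j) : 0 ≤ ff i j t k := by
  have h1 := ww_le hij k
  have h3 := gg_nn (k i)
  have h4 := gg_nn (k j)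
  unfold ff
  rcases (sm_nn k).lt_or_eq with h | h
  · rw [J_pow t h]
    have h5 := (J0_pos h).le
    have h6 := (rr_pos (sm_nn k)).le
    positivity
  · rw [← h] at h1
    have : gg (k i) + gg (k j) = 0 := by linarith
    rw [this, zero_mul]

lemma ff_pos {i j : Fin n} (t : ℕ) {k : Fin n → ℝ} (hij : i ≠ j) (hk : 0 < gg (k i)) :
    0 < ff i j t k := by
  have h1 := ww_le hij k
  have h4 := gg_nn (k j)
  have h : 0 < sm k := by linarith
  unfold ff
  rw [J_pow t h]
  have h5 := J0_pos h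
  have h6 := rr_pos (sm_nn k)
  positivity

lemma int_pos {i j : Fin n} (hij : i ≠ j) (t : ℕ) : 0 < ∫ k in cube n, ff i j t k := by
  rw [setIntegral_pos_iff_support_of_nonneg_ae
    (Filter.Eventually.of_forall fun k => ff_nn i j t k hij) (ff_int hij t)]
  have ho : IsOpen (Set.pi Set.univ fun _ : Fin n => Ioo (0 : ℝ) (1 / 2)) :=
    isOpen_set_pi Set.finite_univ fun _ _ => isOpen_Ioo
  refine (ho.measure_pos volume ⟨fun _ => 1 / 4, fun _ _ => ⟨by norm_num, by norm_num⟩⟩).trans_le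
    (measure_mono fun k hk => ⟨?_, fun l _ => ?_⟩)
  · have h1 := hk i (Set.mem_univ i)
    refine (ff_pos t hij ?_).ne'
    have h2 := gg_low (x := k i) (by rw [abs_of_pos h1.1]; exact h1.2.le)
    have h3 := h1.1
    have : 0 < 16 * k i ^ 2 := by positivity
    linarith
  · have h1 := hk l (Set.mem_univ l)
    exact ⟨h1.1.le, by linarith [h1.2]⟩

lemma ff_shift (i j : Fin n) (t : ℕ) : ∫ k in cube n, ff i j t k = ∫ k in cubs n, ff i j t k :=
  shift (n := n) fun g => (g i + g j) * J t (∑ l, g l)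

lemma ff_ints {i j : Fin n} (hij : i ≠ j) (t : ℕ) : IntegrableOn (ff i j t) (cubs n) := by
  by_contra h
  have h1 := int_pos hij t
  rw [ff_shift, integral_undef h] at h1
  exact lt_irrefl _ h1

lemma abs_cubs {k : Fin n → ℝ} (hk : k ∈ cubs n) (i : Fin n) : |k i| ≤ 1 / 2 := by
  have := hk i
  rw [abs_le]
  constructor <;> linarith [this.1, this.2]

/-- the scaling of the integrand -/
lemma ff_scale {i j : Fin n} (hij : i ≠ j) (t : ℕ) {k : Fin n → ℝ} (hk : k ∈ cubs n) {a : ℝ}
    (ha : a = 1 / ((n : ℝ) + 4)) : 2 / 5 * a ^ 2 * ff i j t k ≤ ff i j (2 * t) (a • k) := by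
  have hn : (0 : ℝ) ≤ n := Nat.cast_nonneg n
  have ha0 : 0 < a := by rw [ha]; positivity
  have ha4 : a * (n + 4) = 1 := by rw [ha]; field_simp
  have ha1 : a ≤ 1 := by nlinarith
  have haa : |a| ≤ 1 := by rw [abs_of_pos ha0]; exact ha1
  have h1 := ww_le hij k
  have h3 := gg_nn (k i)
  have h4 := gg_nn (k j)
  rcases (sm_nn k).lt_or_eq with h | h
  · have b1 : sm (a • k) ≤ 5 / 2 * a ^ 2 * sm k := by
      unfold sm
      rw [Finset.mul_sum]
      exact Finset.sum_le_sum fun l _ => gg_sc1 (abs_cubs hk l)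
    have b2 : 2 / 5 * a ^ 2 * sm k ≤ sm (a • k) := by
      unfold sm
      rw [Finset.mul_sum]
      exact Finset.sum_le_sum fun l _ => gg_sc2 haa (abs_cubs hk l)
    have b3 : 0 < sm (a • k) := lt_of_lt_of_le (by positivity) b2
    have b4 : sm (a • k) ≤ a * sm k := by
      refine b1.trans (mul_le_mul_of_nonneg_right ?_ h.le)
      nlinarith
    have b5 : sm (a • k) ≤ n := by
      refine b4.trans ((mul_le_mul_of_nonneg_left (sm_le k) ha0.le).trans ?_)
      nlinarith
    have b6 : 4 * sm (a • k) + sm (a • k) ^ 2 ≤ sm k := by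
      have c1 := mul_le_mul b4 (by linarith : 4 + sm (a • k) ≤ 4 + n) (by positivity)
        (by positivity)
      have c2 : a * sm k * (4 + n) = sm k := by
        calc a * sm k * (4 + n) = (a * (n + 4)) * sm k := by ring
          _ = sm k := by rw [ha4, one_mul]
      rw [c2] at c1
      linarith
    have b7 := rr_half b3.le b6
    have b8 : J 0 (sm k) ≤ J 0 (sm (a • k)) := J0_anti b3 (by nlinarith)
    have b9 : rr (sm k) ^ t ≤ rr (sm (a • k)) ^ (2 * t) := by
      rw [pow_mul]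
      exact pow_le_pow_left₀ (rr_pos h.le).le b7 t
    have b10 : 2 / 5 * a ^ 2 * (gg (k i) + gg (k j)) ≤ gg ((a • k) i) + gg ((a • k) j) := by
      have d1 := gg_sc2 haa (abs_cubs hk i)
      have d2 := gg_sc2 haa (abs_cubs hk j)
      simp only [Pi.smul_apply, smul_eq_mul]
      linarith
    unfold ff
    rw [J_pow t h, J_pow (2 * t) b3]
    have d3 := mul_le_mul b8 b9 (pow_nonneg (rr_pos h.le).le t) (J0_pos b3).le
    have d4 := mul_le_mul b10 d3 (mul_nonneg (J0_pos h).le (pow_nonneg (rr_pos h.le).le t))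
      (add_nonneg (gg_nn _) (gg_nn _))
    linarith
  · rw [← h] at h1
    have h0 : gg (k i) + gg (k j) = 0 := by linarith
    have h2 : ff i j t k = 0 := by unfold ff; rw [h0, zero_mul]
    rw [h2, mul_zero]
    exact ff_nn i j _ _ hij

lemma int_scale {i j : Fin n} (hij : i ≠ j) (t : ℕ) : ∫ k in cube n, ff i j t k ≤
    5 / 2 * ((n : ℝ) + 4) ^ (n + 2) * ∫ k in cube n, ff i j (2 * t) k := by
  obtain ⟨a, ha⟩ : ∃ a : ℝ, a = 1 / ((n : ℝ) + 4) := ⟨_, rfl⟩
  have hn : (0 : ℝ) ≤ n := Nat.cast_nonneg n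
  have ha0 : 0 < a := by rw [ha]; positivity
  have ha4 : a * (n + 4) = 1 := by rw [ha]; field_simp
  have ha1 : a ≤ 1 := by nlinarith
  have hmeas : MeasurableSet (cubs n) := by
    have : cubs n = Set.pi Set.univ fun _ => Ioc (-1 / 2 : ℝ) (-1 / 2 + 1) := by
      ext x; simp
    rw [this]
    exact MeasurableSet.univ_pi fun _ => measurableSet_Ioc
  have hsub : a • cubs n ⊆ cubs n := by
    rintro _ ⟨k, hk, rfl⟩ i
    have := hk i
    simp only [Pi.smul_apply, smul_eq_mul]
    constructor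
    · nlinarith [this.1, this.2]
    · nlinarith [this.1, this.2]
  rw [ff_shift, ff_shift]
  have h1 : ∫ k in a • cubs n, ff i j (2 * t) k ≤ ∫ k in cubs n, ff i j (2 * t) k :=
    setIntegral_mono_set (ff_ints hij _)
      (Filter.Eventually.of_forall fun k => ff_nn i j _ k hij) hsub.eventuallyLE
  have h2 := Measure.setIntegral_comp_smul_of_pos volume (ff i j (2 * t)) (cubs n) ha0
  rw [Module.finrank_fin_fun, smul_eq_mul] at h2
  have h3 : ∫ k in a • cubs n, ff i j (2 * t) k =
      a ^ n * ∫ k in cubs n, ff i j (2 * t) (a • k) := by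
    rw [h2, ← mul_assoc, mul_inv_cancel₀ (pow_pos ha0 n).ne', one_mul]
  have hi : IntegrableOn (fun k => ff i j (2 * t) (a • k)) (cubs n) := by
    have h4 := (ff_ints hij (2 * t)).mono_set hsub
    have hm2 : MeasurableSet (a • cubs n) := hmeas.const_smul_of_ne_zero ha0.ne'
    rw [← integrable_indicator_iff hm2] at h4
    have h5 := (integrable_comp_smul_iff (volume : Measure (Fin n → ℝ)) _ ha0.ne').2 h4
    rw [← integrable_indicator_iff hmeas]
    refine h5.congr (Filter.Eventually.of_forall fun k => ?_)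
    show (a • cubs n).indicator (ff i j (2 * t)) (a • k) = _
    by_cases hk : k ∈ cubs n
    · rw [Set.indicator_of_mem hk, Set.indicator_of_mem (Set.smul_mem_smul_set hk)]
    · rw [Set.indicator_of_notMem hk, Set.indicator_of_notMem]
      rwa [Set.smul_mem_smul_set_iff₀ ha0.ne']
  have h5 : ∫ k in cubs n, 2 / 5 * a ^ 2 * ff i j t k ≤
      ∫ k in cubs n, ff i j (2 * t) (a • k) :=
    setIntegral_mono_on ((ff_ints hij t).const_mul _) hi hmeas fun k hk => ff_scale hij t hk ha
  rw [integral_const_mul] at h5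
  have h6 := mul_le_mul_of_nonneg_left h5 (pow_pos ha0 n).le
  rw [← h3] at h6
  have h7 := h6.trans h1
  have h8 := mul_le_mul_of_nonneg_left h7 (by positivity : 0 ≤ 5 / 2 * ((n : ℝ) + 4) ^ (n + 2))
  refine le_trans (le_of_eq ?_) h8
  have h9 : a ^ (n + 2) * ((n : ℝ) + 4) ^ (n + 2) = 1 := by
    rw [← mul_pow, ha4, one_pow]
  calc ∫ k in cubs n, ff i j t k = (a ^ (n + 2) * ((n : ℝ) + 4) ^ (n + 2)) *
        ∫ k in cubs n, ff i j t k := by rw [h9, one_mul]
    _ = _ := by rw [pow_add a n 2]; ring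

lemma int_anti {i j : Fin n} (hij : i ≠ j) (t : ℕ) :
    ∫ k in cube n, ff i j (t + 1) k ≤ ∫ k in cube n, ff i j t k := by
  refine integral_mono (ff_int hij _) (ff_int hij _) fun k => ?_
  have h1 := ww_le hij k
  have h3 := gg_nn (k i)
  have h4 := gg_nn (k j)
  rcases (sm_nn k).lt_or_eq with h | h
  · unfold ff
    rw [J_pow (t + 1) h, J_pow t h]
    refine mul_le_mul_of_nonneg_left ?_ (by linarith)
    refine mul_le_mul_of_nonneg_left ?_ (J0_pos h).le
    exact pow_le_pow_of_le_one (rr_pos h.le).le (rr_le h.le) (Nat.le_succ t)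
  · rw [← h] at h1
    have h0 : gg (k i) + gg (k j) = 0 := by linarith
    have h2 : ∀ t, ff i j t k = 0 := fun t => by unfold ff; rw [h0, zero_mul]
    simp only [h2]
    exact le_rfl

end nd

/-- the correlation of two plaquettes of the Maxwell field decreases with the distance -/
theorem KK_anti {d : ℕ} (hd : 3 ≤ d) {τ i j : Fin d} (hi : i ≠ τ) (hj : j ≠ τ) (hij : i ≠ j)
    (t : ℕ) : KK i j (-Pi.single τ ((t + 1 : ℕ) : ℤ)) ≤ KK i j (-Pi.single τ (t : ℤ)) := by
  obtain ⟨n, rfl⟩ : ∃ n, d = n + 1 := ⟨d - 1, by omega⟩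
  obtain ⟨i', rfl⟩ := Fin.exists_succAbove_eq hi
  obtain ⟨j', rfl⟩ := Fin.exists_succAbove_eq hj
  have hij' : i' ≠ j' := fun h => hij (by rw [h])
  rw [KK_eq hd, KK_eq hd, fub τ hij', fub τ hij']
  exact int_anti hij' t

/-- the correlation of two plaquettes of the Maxwell field along an orthogonal direction: it is
positive, and decreases at most by a bounded factor when the distance is doubled -/
theorem KK_main {d : ℕ} (hd : 3 ≤ d) {τ i j : Fin d} (hi : i ≠ τ) (hj : j ≠ τ) (hij : i ≠ j)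
    (t : ℕ) : 0 < KK i j (-Pi.single τ (t : ℤ)) ∧ KK i j (-Pi.single τ (t : ℤ)) ≤
      5 / 2 * ((d : ℝ) + 3) ^ (d + 1) * KK i j (-Pi.single τ ((2 * t : ℕ) : ℤ)) := by
  obtain ⟨n, rfl⟩ : ∃ n, d = n + 1 := ⟨d - 1, by omega⟩
  obtain ⟨i', rfl⟩ := Fin.exists_succAbove_eq hi
  obtain ⟨j', rfl⟩ := Fin.exists_succAbove_eq hj
  have hij' : i' ≠ j' := fun h => hij (by rw [h])
  have h := int_scale hij' t
  have e : (5 : ℝ) / 2 * (((n + 1 : ℕ) : ℝ) + 3) ^ (n + 1 + 1) =
      5 / 2 * ((n : ℝ) + 4) ^ (n + 2) := by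
    push_cast
    ring_nf
  rw [KK_eq hd, KK_eq hd, fub τ hij', fub τ hij', e]
  exact ⟨int_pos hij' t, h⟩

end

end Pool.Agent.W2helper10.MK
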